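import Pool.Agent.Helper12K9.QU.Vk1

/-!
# Vinogradov's method for the sums of `e(Y / n)`: from the sums to the bilinear sums
-/

set_option autoImplicit false

namespace Pool.Agent.Helper12K9.QU

open Finset Pool.Agent.Y957.VK Pool.Agent.Y125.VK

/-- the summand -/
noncomputable def E (Y : ℝ) (n : ℕ) : ℂ :=
  Complex.exp (Complex.I * ((2 * Real.pi * (Y / n) : ℝ) : ℂ))

/-- the coefficients of the phase -/
noncomputable def be (Y : ℝ) (n j : ℕ) : ℝ := (-1) ^ j * Y / (n : ℝ) ^ (j + 1)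

theorem norm_E (Y : ℝ) (n : ℕ) : ‖E Y n‖ = 1 := Complex.norm_exp_I_mul_ofReal _

/-- the Taylor expansion of `1 / (1 + z)` -/
theorem inv_bound (r : ℕ) (z : ℝ) (hz : 0 ≤ z) :
    |1 / (1 + z) - 1 - ∑ j ∈ Finset.Icc 1 r, (-1) ^ j * z ^ j| ≤ z ^ (r + 1) := by
  have h5 : (1 : ℝ) + z ≠ 0 := by linarith
  have h4 := mul_neg_geom_sum (-z) (r + 1)
  have h6 : (∑ j ∈ Finset.range (r + 1), (-z) ^ j) * (1 + z) = 1 - (-z) ^ (r + 1) := by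
    rw [← h4]
    ring
  have h7 : ∑ j ∈ Finset.range (r + 1), (-z) ^ j = 1 + ∑ j ∈ Finset.Icc 1 r, (-1) ^ j * z ^ j := by
    rw [Finset.sum_range_succ', pow_zero, add_comm]
    congr 1
    have hI : Finset.Icc 1 r = Finset.Ico 1 (r + 1) := rfl
    rw [hI, Finset.sum_Ico_eq_sum_range, Nat.add_sub_cancel]
    refine Finset.sum_congr rfl fun j _ => ?_
    rw [neg_pow, add_comm 1 j]
  have h8 : 1 / (1 + z) - 1 - ∑ j ∈ Finset.Icc 1 r, (-1) ^ j * z ^ j = (-z) ^ (r + 1) / (1 + z) := by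
    rw [sub_sub, ← h7, eq_div_iff h5, sub_mul, h6, one_div, inv_mul_cancel₀ h5]
    ring
  rw [h8, abs_div, abs_pow, abs_neg, abs_of_nonneg hz, abs_of_pos (by linarith : (0 : ℝ) < 1 + z),
    div_le_iff₀ (by linarith)]
  have : 0 ≤ z ^ (r + 1) := by positivity
  nlinarith

/-- the phase of the bilinear sum -/
theorem phase_eq' (Y : ℝ) (n r x y : ℕ) (hn : 1 ≤ n) :
    ∑ j ∈ Finset.Icc 1 r, be Y n j * ((x : ℝ) * y) ^ j =
      Y / n * ∑ j ∈ Finset.Icc 1 r, (-1) ^ j * ((x : ℝ) * y / n) ^ j := by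
  have hn0 : (n : ℝ) ≠ 0 := by exact_mod_cast (by omega : n ≠ 0)
  rw [Finset.mul_sum]
  refine Finset.sum_congr rfl fun j _ => ?_
  unfold be
  rw [div_pow, pow_succ]
  field_simp

/-- one value of `n` -/
theorem inner' (Y : ℝ) (N n M r : ℕ) (hN : 1 ≤ N) (hn : N < n) :
    ‖∑ x ∈ Finset.Icc 1 M, ∑ y ∈ Finset.Icc 1 M, E Y (n + x * y)‖ ≤
      ‖TT r M (be Y n)‖ + (M : ℝ) ^ 2 * (2 * Real.pi * |Y| / N * ((M : ℝ) ^ 2 / N) ^ (r + 1)) := by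
  have hn1 : 1 ≤ n := by omega
  have hN0 : (0 : ℝ) < N := by exact_mod_cast hN
  have hn0 : (0 : ℝ) < n := by exact_mod_cast hn1
  have hNn : (N : ℝ) ≤ n := by exact_mod_cast hn.le
  have h1 : ∀ x ∈ Finset.Icc 1 M, ∀ y ∈ Finset.Icc 1 M,
      ‖E Y (n + x * y) - E Y n *
        Complex.exp (2 * Real.pi * Complex.I *
          ((∑ j ∈ Finset.Icc 1 r, be Y n j * ((x : ℝ) * y) ^ j : ℝ) : ℂ))‖ ≤
      2 * Real.pi * |Y| / N * ((M : ℝ) ^ 2 / N) ^ (r + 1) := by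
    intro x hx y hy
    have hx' := Finset.mem_Icc.1 hx
    have hy' := Finset.mem_Icc.1 hy
    have h2 : E Y n * Complex.exp (2 * Real.pi * Complex.I *
          ((∑ j ∈ Finset.Icc 1 r, be Y n j * ((x : ℝ) * y) ^ j : ℝ) : ℂ)) =
        Complex.exp (Complex.I * ((2 * Real.pi * (Y / n) * (1 + ∑ j ∈ Finset.Icc 1 r,
          (-1) ^ j * ((x : ℝ) * y / n) ^ j) : ℝ) : ℂ)) := by
      unfold E
      rw [← Complex.exp_add, phase_eq' Y n r x y hn1]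
      congr 1
      push_cast
      ring
    have h3 : E Y (n + x * y) = Complex.exp (Complex.I * ((2 * Real.pi * (Y / n) *
        (1 / (1 + (x : ℝ) * y / n)) : ℝ) : ℂ)) := by
      unfold E
      congr 3
      have h4 : (1 : ℝ) + x * y / n ≠ 0 := by positivity
      have h5 : ((n + x * y : ℕ) : ℝ) = n * (1 + (x : ℝ) * y / n) := by
        push_cast
        field_simp
      rw [h5]
      field_simp
    rw [h2, h3]
    refine (exp_sub_le _ _).trans ?_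
    rw [← mul_sub, ← sub_sub, abs_mul]
    have h6 : |2 * Real.pi * (Y / n)| ≤ 2 * Real.pi * |Y| / N := by
      rw [abs_mul, abs_of_pos (by positivity : (0 : ℝ) < 2 * Real.pi), abs_div, abs_of_pos hn0,
        mul_div_assoc]
      gcongr
    refine mul_le_mul h6 ?_ (abs_nonneg _) (by positivity)
    refine (inv_bound r _ (by positivity)).trans ?_
    refine pow_le_pow_left₀ (by positivity) ?_ _
    have h3 : (x : ℝ) ≤ M := by exact_mod_cast hx'.2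
    have h4 : (y : ℝ) ≤ M := by exact_mod_cast hy'.2
    have h6 : (x : ℝ) * y ≤ (M : ℝ) ^ 2 := by
      rw [sq]
      exact mul_le_mul h3 h4 (by positivity) (by positivity)
    exact div_le_div₀ (by positivity) h6 hN0 hNn
  have h2 : ∑ x ∈ Finset.Icc 1 M, ∑ y ∈ Finset.Icc 1 M, E Y (n + x * y) =
      E Y n * TT r M (be Y n) +
      ∑ x ∈ Finset.Icc 1 M, ∑ y ∈ Finset.Icc 1 M,
        (E Y (n + x * y) - E Y n *
        Complex.exp (2 * Real.pi * Complex.I *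
          ((∑ j ∈ Finset.Icc 1 r, be Y n j * ((x : ℝ) * y) ^ j : ℝ) : ℂ))) := by
    unfold TT
    simp only [Finset.sum_sub_distrib, Finset.mul_sum]
    ring
  rw [h2]
  refine (norm_add_le _ _).trans ?_
  rw [norm_mul, norm_E, one_mul]
  refine add_le_add le_rfl ?_
  refine (norm_sum_le _ _).trans ?_
  refine (Finset.sum_le_sum fun x hx => (norm_sum_le _ _).trans
    (Finset.sum_le_sum fun y hy => h1 x hx y hy)).trans ?_
  simp only [Finset.sum_const, Nat.card_Icc, Nat.add_sub_cancel, nsmul_eq_mul]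
  rw [sq]
  linarith

/-- the shift of a sum -/
theorem shift_one' (Y : ℝ) (N N' h : ℕ) (hNN : N ≤ N') :
    ‖∑ n ∈ Finset.Ioc N N', E Y n - ∑ n ∈ Finset.Ioc N N', E Y (n + h)‖ ≤ 2 * h := by
  obtain ⟨g, hg⟩ : ∃ g : ℕ → ℂ, ∀ n, g n = E Y n := ⟨_, fun _ => rfl⟩
  simp only [← hg]
  have hb : ∀ a b : ℕ, ‖∑ n ∈ Finset.Ioc a (a + b), g n‖ ≤ b := by
    intro a b
    refine (norm_sum_le _ _).trans ?_
    have h1 : ∀ n ∈ Finset.Ioc a (a + b), ‖g n‖ ≤ 1 := by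
      intro n _
      rw [hg, norm_E]
    refine (Finset.sum_le_sum h1).trans ?_
    simp
  have h1 : ∑ n ∈ Finset.Ioc N N', g (n + h) = ∑ n ∈ Finset.Ioc (N + h) (N' + h), g n := by
    rw [← Finset.map_add_right_Ioc, Finset.sum_map]
    rfl
  have h2 : ∑ n ∈ Finset.Ioc N N', g n + ∑ n ∈ Finset.Ioc N' (N' + h), g n =
      ∑ n ∈ Finset.Ioc N (N + h), g n + ∑ n ∈ Finset.Ioc (N + h) (N' + h), g n := by
    rw [Finset.sum_Ioc_consecutive g hNN (by omega),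
      Finset.sum_Ioc_consecutive g (by omega) (by omega)]
  have h3 : ∑ n ∈ Finset.Ioc N N', g n - ∑ n ∈ Finset.Ioc N N', g (n + h) =
      ∑ n ∈ Finset.Ioc N (N + h), g n - ∑ n ∈ Finset.Ioc N' (N' + h), g n := by
    rw [h1]
    linear_combination h2
  rw [h3]
  refine (norm_sub_le _ _).trans ?_
  linarith [hb N h, hb N' h]

theorem shift' (N N' M r : ℕ) (Y : ℝ) (hN : 1 ≤ N) (hNN : N ≤ N') (hN2 : N' ≤ 2 * N) (hM : 1 ≤ M) :
    ‖∑ n ∈ Finset.Ioc N N', E Y n‖ ≤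
      1 / (M : ℝ) ^ 2 * ∑ n ∈ Finset.Ioc N N', ‖TT r M (be Y n)‖ + 2 * (M : ℝ) ^ 2 +
      2 * Real.pi * |Y| * ((M : ℝ) ^ 2 / N) ^ (r + 1) := by
  obtain ⟨S, hS⟩ : ∃ S, S = ∑ n ∈ Finset.Ioc N N', E Y n := ⟨_, rfl⟩
  rw [← hS]
  have hM0 : (0 : ℝ) < M := by exact_mod_cast hM
  have hN0 : (0 : ℝ) < N := by exact_mod_cast hN
  have h1 : (M : ℂ) ^ 2 * S = ∑ x ∈ Finset.Icc 1 M, ∑ y ∈ Finset.Icc 1 M,
      (S - ∑ n ∈ Finset.Ioc N N', E Y (n + x * y)) +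
      ∑ n ∈ Finset.Ioc N N', ∑ x ∈ Finset.Icc 1 M, ∑ y ∈ Finset.Icc 1 M, E Y (n + x * y) := by
    have h2 : ∑ n ∈ Finset.Ioc N N', ∑ x ∈ Finset.Icc 1 M, ∑ y ∈ Finset.Icc 1 M, E Y (n + x * y) =
        ∑ x ∈ Finset.Icc 1 M, ∑ y ∈ Finset.Icc 1 M, ∑ n ∈ Finset.Ioc N N', E Y (n + x * y) := by
      rw [Finset.sum_comm]
      refine Finset.sum_congr rfl fun x _ => ?_
      rw [Finset.sum_comm]
    rw [h2]
    simp only [Finset.sum_sub_distrib, Finset.sum_const, Nat.card_Icc, Nat.add_sub_cancel,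
      nsmul_eq_mul]
    ring
  have h3 : (M : ℝ) ^ 2 * ‖S‖ ≤ (M : ℝ) ^ 2 * (2 * (M : ℝ) ^ 2) +
      ∑ n ∈ Finset.Ioc N N', (‖TT r M (be Y n)‖ +
        (M : ℝ) ^ 2 * (2 * Real.pi * |Y| / N * ((M : ℝ) ^ 2 / N) ^ (r + 1))) := by
    have h4 : ‖(M : ℂ) ^ 2 * S‖ = (M : ℝ) ^ 2 * ‖S‖ := by
      rw [norm_mul, norm_pow, Complex.norm_natCast]
    rw [← h4, h1]
    refine (norm_add_le _ _).trans (add_le_add ?_ ?_)
    · refine (norm_sum_le _ _).trans ?_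
      refine (Finset.sum_le_sum (g := fun _ => (M : ℝ) * (2 * (M : ℝ) ^ 2)) fun x hx =>
        (norm_sum_le _ _).trans ?_).trans ?_
      · refine (Finset.sum_le_sum (g := fun _ => 2 * (M : ℝ) ^ 2) fun y hy => ?_).trans ?_
        · rw [hS]
          refine (shift_one' Y N N' (x * y) hNN).trans ?_
          have hx' : (x : ℝ) ≤ M := by exact_mod_cast (Finset.mem_Icc.1 hx).2
          have hy' : (y : ℝ) ≤ M := by exact_mod_cast (Finset.mem_Icc.1 hy).2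
          have : (x : ℝ) * y ≤ M * M := mul_le_mul hx' hy' (by positivity) (by positivity)
          push_cast
          nlinarith
        · simp
      · simp only [Finset.sum_const, Nat.card_Icc, Nat.add_sub_cancel, nsmul_eq_mul]
        rw [sq]
        linarith
    · refine (norm_sum_le _ _).trans (Finset.sum_le_sum fun n hn => ?_)
      exact inner' Y N n M r hN (Finset.mem_Ioc.1 hn).1
  rw [Finset.sum_add_distrib] at h3
  have h5 : ∑ n ∈ Finset.Ioc N N', (M : ℝ) ^ 2 * (2 * Real.pi * |Y| / N * ((M : ℝ) ^ 2 / N) ^ (r + 1)) ≤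
      (M : ℝ) ^ 2 * (2 * Real.pi * |Y| * ((M : ℝ) ^ 2 / N) ^ (r + 1)) := by
    rw [Finset.sum_const, Nat.card_Ioc, nsmul_eq_mul]
    have h6 : ((N' - N : ℕ) : ℝ) ≤ N := by exact_mod_cast (by omega : N' - N ≤ N)
    have h7 : 0 ≤ (M : ℝ) ^ 2 * (2 * Real.pi * |Y| / N * ((M : ℝ) ^ 2 / N) ^ (r + 1)) := by positivity
    calc _ ≤ (N : ℝ) * ((M : ℝ) ^ 2 * (2 * Real.pi * |Y| / N * ((M : ℝ) ^ 2 / N) ^ (r + 1))) :=
          mul_le_mul_of_nonneg_right h6 h7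
      _ = _ := by field_simp
  have h8 : (0 : ℝ) < (M : ℝ) ^ 2 := by positivity
  have h9 : (M : ℝ) ^ 2 * ‖S‖ ≤ (M : ℝ) ^ 2 * (1 / (M : ℝ) ^ 2 *
      ∑ n ∈ Finset.Ioc N N', ‖TT r M (be Y n)‖ + 2 * (M : ℝ) ^ 2 +
      2 * Real.pi * |Y| * ((M : ℝ) ^ 2 / N) ^ (r + 1)) := by
    have h10 : (M : ℝ) ^ 2 * (1 / (M : ℝ) ^ 2 *
      ∑ n ∈ Finset.Ioc N N', ‖TT r M (be Y n)‖ + 2 * (M : ℝ) ^ 2 +
      2 * Real.pi * |Y| * ((M : ℝ) ^ 2 / N) ^ (r + 1)) = ∑ n ∈ Finset.Ioc N N', ‖TT r M (be Y n)‖ +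
        (M : ℝ) ^ 2 * (2 * (M : ℝ) ^ 2) + (M : ℝ) ^ 2 *
          (2 * Real.pi * |Y| * ((M : ℝ) ^ 2 / N) ^ (r + 1)) := by
      field_simp
    rw [h10]
    linarith
  exact le_of_mul_le_mul_left h9 h8

/-- the sizes of the coefficients -/
theorem be_size (N n : ℕ) (Y κ : ℝ) (hN : 2 ≤ N) (hn : n ∈ Finset.Ioc N (2 * N))
    (hY : |Y| = (N : ℝ) ^ (κ + 1)) (j : ℕ) :
    |be Y n j| * (N : ℝ) ^ j ≤ (N : ℝ) ^ κ ∧ (N : ℝ) ^ κ ≤ 2 ^ (j + 1) * ((N : ℝ) ^ j * |be Y n j|) := by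
  obtain ⟨hn1, hn2⟩ := Finset.mem_Ioc.1 hn
  have hN0 : (0 : ℝ) < N := by exact_mod_cast (by omega : 0 < N)
  have hn0 : (N : ℝ) ≤ n := by exact_mod_cast hn1.le
  have hn2' : (n : ℝ) ≤ 2 * N := by exact_mod_cast hn2
  have hnp : (0 : ℝ) < n := by linarith
  have hab : |be Y n j| = (N : ℝ) ^ κ * N / (n : ℝ) ^ (j + 1) := by
    unfold be
    rw [abs_div, abs_mul, abs_pow, abs_neg, abs_one, one_pow, one_mul, hY,
      abs_of_pos (by positivity : (0 : ℝ) < (n : ℝ) ^ (j + 1)), Real.rpow_add hN0, Real.rpow_one]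
  have hκ : 0 < (N : ℝ) ^ κ := Real.rpow_pos_of_pos hN0 _
  rw [hab]
  constructor
  · rw [div_mul_eq_mul_div, div_le_iff₀ (by positivity)]
    calc (N : ℝ) ^ κ * N * (N : ℝ) ^ j = (N : ℝ) ^ κ * (N : ℝ) ^ (j + 1) := by rw [pow_succ]; ring
      _ ≤ (N : ℝ) ^ κ * (n : ℝ) ^ (j + 1) := by gcongr
  · rw [← mul_div_assoc, ← mul_div_assoc, le_div_iff₀ (by positivity)]
    calc (N : ℝ) ^ κ * (n : ℝ) ^ (j + 1) ≤ (N : ℝ) ^ κ * (2 * N : ℝ) ^ (j + 1) := by gcongr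
      _ = _ := by rw [mul_pow, pow_succ (N : ℝ)]; ring

/-- the bound for the sums of `e(Y / n)` -/
theorem zsE : ∃ (C : ℕ) (c : ℝ), 0 < c ∧ c ≤ 1 / 10 ∧ ∀ (N N' : ℕ) (Y κ : ℝ), 2 ≤ N → N ≤ N' → N' ≤ 2 * N →
    1 / 2 ≤ κ → |Y| = (N : ℝ) ^ (κ + 1) →
    ‖∑ n ∈ Finset.Ioc N N', E Y n‖ ≤
      Real.exp (C * (1 + κ) ^ C) * (N : ℝ) ^ (1 - c / (1 + κ) ^ 2 : ℝ) := by
  obtain ⟨C, c, hc0, hc1, hT⟩ := tnG vmvt_all dbl_all Pool.Agent.Y331.VK.wb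
  refine ⟨C + 9, c, hc0, hc1, fun N N' Y κ hN hNN hN2 hκ hY => ?_⟩
  have hN1 : (1 : ℝ) ≤ N := by exact_mod_cast (by omega : 1 ≤ N)
  have hNp : (0 : ℝ) < N := by linarith
  obtain ⟨x, hx⟩ : ∃ x : ℝ, x = (N : ℝ) ^ (2 / 5 : ℝ) := ⟨_, rfl⟩
  have hx1 : 1 ≤ x := by
    rw [hx]
    exact Real.one_le_rpow hN1 (by norm_num)
  obtain ⟨M, hM⟩ : ∃ M : ℕ, M = ⌊(N : ℝ) ^ (2 / 5 : ℝ)⌋₊ := ⟨_, rfl⟩
  rw [← hx] at hM
  have hM1 : 1 ≤ M := by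
    rw [hM]
    exact Nat.le_floor (by simpa using hx1)
  have hM1' : (1 : ℝ) ≤ M := by exact_mod_cast hM1
  have hMx : (M : ℝ) ≤ x := by
    rw [hM]
    exact Nat.floor_le (by linarith)
  have hM2 : (M : ℝ) ^ 2 ≤ (N : ℝ) ^ (4 / 5 : ℝ) := by
    calc (M : ℝ) ^ 2 ≤ x ^ 2 := pow_le_pow_left₀ (by positivity) hMx 2
      _ = (N : ℝ) ^ (4 / 5 : ℝ) := by
        rw [hx, ← Real.rpow_natCast, ← Real.rpow_mul hNp.le]
        norm_num
  obtain ⟨r, hr⟩ : ∃ r : ℕ, r = ⌈5 * κ⌉₊ + 5 := ⟨_, rfl⟩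
  have hr5 : 5 * κ + 5 ≤ (r : ℝ) := by
    rw [hr]
    push_cast
    linarith [Nat.le_ceil (5 * κ)]
  obtain ⟨η, hη⟩ : ∃ η : ℝ, η = c / (1 + κ) ^ 2 := ⟨_, rfl⟩
  obtain ⟨E', hE⟩ : ∃ E' : ℝ, E' = Real.exp (C * (1 + κ) ^ C) := ⟨_, rfl⟩
  have hE0 : 0 < E' := by rw [hE]; exact Real.exp_pos _
  have hκ1 : 1 ≤ 1 + κ := by linarith
  have hη1 : η ≤ 1 / 10 := by
    rw [hη]
    refine le_trans (div_le_self hc0.le ?_) hc1
    exact one_le_pow₀ hκ1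
  have hmain := shift' N N' M r Y (by omega) hNN hN2 hM1
  -- the first term
  have hTn : ∀ n ∈ Ioc N N', ‖TT r M (be Y n)‖ ≤ E' * (M : ℝ) ^ 2 * (N : ℝ) ^ (-η) := by
    intro n hn
    rw [Finset.mem_Ioc] at hn
    have h3 := hT N κ (be Y n) hN hκ (fun j _ => be_size N n Y κ hN
      (Finset.mem_Ioc.2 ⟨hn.1, by omega⟩) hY j)
    rw [← hr, ← hx, ← hM, ← hE, ← hη] at h3
    exact h3
  have hsum : ∑ n ∈ Ioc N N', ‖TT r M (be Y n)‖ ≤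
      (N : ℝ) * (E' * (M : ℝ) ^ 2 * (N : ℝ) ^ (-η)) := by
    refine (Finset.sum_le_sum hTn).trans ?_
    rw [Finset.sum_const, Nat.card_Ioc, nsmul_eq_mul]
    refine mul_le_mul_of_nonneg_right ?_ (by positivity)
    exact_mod_cast (by omega : N' - N ≤ N)
  have hpow : (N : ℝ) ^ (1 - η) = N * (N : ℝ) ^ (-η) := by
    rw [sub_eq_add_neg, Real.rpow_add hNp, Real.rpow_one]
  have t1 : 1 / (M : ℝ) ^ 2 * ∑ n ∈ Ioc N N', ‖TT r M (be Y n)‖ ≤ E' * (N : ℝ) ^ (1 - η) := by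
    calc 1 / (M : ℝ) ^ 2 * ∑ n ∈ Ioc N N', ‖TT r M (be Y n)‖
        ≤ 1 / (M : ℝ) ^ 2 * ((N : ℝ) * (E' * (M : ℝ) ^ 2 * (N : ℝ) ^ (-η))) :=
          mul_le_mul_of_nonneg_left hsum (by positivity)
      _ = E' * (N : ℝ) ^ (1 - η) := by
        rw [hpow]
        field_simp
  -- the second term
  have t2 : 2 * (M : ℝ) ^ 2 ≤ 2 * (N : ℝ) ^ (1 - η) := by
    refine mul_le_mul_of_nonneg_left (hM2.trans ?_) (by norm_num)
    exact Real.rpow_le_rpow_of_exponent_le hN1 (by linarith)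
  -- the third term
  have h5 : (M : ℝ) ^ 2 / N ≤ (N : ℝ) ^ (-(1 / 5) : ℝ) := by
    rw [div_le_iff₀ hNp]
    refine hM2.trans (le_of_eq ?_)
    conv_rhs => rw [← Real.rpow_one (N : ℝ), ← Real.rpow_mul hNp.le, one_mul, ← Real.rpow_add hNp]
    norm_num
  have t3 : 2 * Real.pi * |Y| * ((M : ℝ) ^ 2 / N) ^ (r + 1) ≤ 7 := by
    have h6 : ((M : ℝ) ^ 2 / N) ^ (r + 1) ≤ (N : ℝ) ^ (-(κ + 6 / 5)) := by
      calc ((M : ℝ) ^ 2 / N) ^ (r + 1) ≤ ((N : ℝ) ^ (-(1 / 5) : ℝ)) ^ (r + 1) :=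
            pow_le_pow_left₀ (by positivity) h5 _
        _ = (N : ℝ) ^ (-(1 / 5) * ((r : ℝ) + 1)) := by
          rw [← Real.rpow_natCast, ← Real.rpow_mul hNp.le]
          push_cast
          ring_nf
        _ ≤ (N : ℝ) ^ (-(κ + 6 / 5)) :=
          Real.rpow_le_rpow_of_exponent_le hN1 (by linarith)
    have h7 : |Y| * (N : ℝ) ^ (-(κ + 6 / 5)) ≤ 1 := by
      rw [hY, ← Real.rpow_add hNp]
      exact Real.rpow_le_one_of_one_le_of_nonpos hN1 (by linarith)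
    calc 2 * Real.pi * |Y| * ((M : ℝ) ^ 2 / N) ^ (r + 1) ≤
        2 * Real.pi * |Y| * (N : ℝ) ^ (-(κ + 6 / 5)) :=
          mul_le_mul_of_nonneg_left h6 (by positivity)
      _ = 2 * Real.pi * (|Y| * (N : ℝ) ^ (-(κ + 6 / 5))) := by ring
      _ ≤ 2 * Real.pi * 1 := by gcongr
      _ ≤ 7 := by linarith [Real.pi_lt_d2]
  have t4 : (1 : ℝ) ≤ (N : ℝ) ^ (1 - η) := Real.one_le_rpow hN1 (by linarith)
  -- the constants
  have hC : E' + 9 ≤ Real.exp (((C + 9 : ℕ) : ℝ) * (1 + κ) ^ (C + 9)) := by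
    have h7 : (1 + κ) ^ C ≤ (1 + κ) ^ (C + 9) := pow_le_pow_right₀ hκ1 (by omega)
    have h8 : 1 ≤ (1 + κ) ^ (C + 9) := one_le_pow₀ hκ1
    have h9 : (C : ℝ) * (1 + κ) ^ C + 9 ≤ ((C + 9 : ℕ) : ℝ) * (1 + κ) ^ (C + 9) := by
      push_cast
      have h10 := mul_le_mul_of_nonneg_left h7 (Nat.cast_nonneg C : (0 : ℝ) ≤ C)
      linarith
    refine le_trans ?_ (Real.exp_le_exp.2 h9)
    rw [Real.exp_add, ← hE]
    have h11 : (9 : ℝ) + 1 ≤ Real.exp 9 := Real.add_one_le_exp 9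
    have h12 : 1 ≤ E' := by
      rw [hE]
      exact Real.one_le_exp (by positivity)
    nlinarith
  rw [← hη]
  calc ‖∑ n ∈ Ioc N N', E Y n‖
      ≤ E' * (N : ℝ) ^ (1 - η) + 2 * (N : ℝ) ^ (1 - η) + 7 :=
        hmain.trans (add_le_add (add_le_add t1 t2) t3)
    _ ≤ (E' + 9) * (N : ℝ) ^ (1 - η) := by nlinarith
    _ ≤ _ := mul_le_mul_of_nonneg_right hC (by positivity)

end Pool.Agent.Helper12K9.QU
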