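import Pool.Agent.Helper12K9.QU.Vk2
import Pool.Agent.H469R2.NK.ExpSum

/-!
# The sums of `e(Y / n)` in the whole range `N exp (2 (log N) ^ ρ) ≤ |Y| ≤ exp ((log N) ^ (1 + δ))`
-/

set_option autoImplicit false

namespace Pool.Agent.Helper12K9.QU

open Finset Filter Topology

/-- real numbers going to infinity -/
lemma logN_tendsto : Tendsto (fun N : ℕ => Real.log N) atTop atTop :=
  Real.tendsto_log_atTop.comp tendsto_natCast_atTop_atTop

/-- comparison of powers of the logarithm -/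
lemma ev_pow (A c s t : ℝ) (hc : 0 < c) (hst : s < t) :
    ∀ᶠ L : ℝ in atTop, A * L ^ s ≤ c * L ^ t := by
  have h1 : Tendsto (fun L : ℝ => L ^ (t - s)) atTop atTop := tendsto_rpow_atTop (by linarith)
  filter_upwards [h1.eventually_ge_atTop (|A| / c), eventually_gt_atTop 0] with L h2 h3
  have h4 : L ^ t = L ^ s * L ^ (t - s) := by
    rw [← Real.rpow_add h3]
    congr 1
    ring
  have h5 : 0 < L ^ s := Real.rpow_pos_of_pos h3 _
  rw [div_le_iff₀ hc] at h2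
  calc A * L ^ s ≤ |A| * L ^ s := by gcongr; exact le_abs_self A
    _ ≤ (L ^ (t - s) * c) * L ^ s := by gcongr
    _ = c * L ^ t := by rw [h4]; ring

lemma sum_Ioc_range (f : ℕ → ℂ) (N N' : ℕ) :
    ∑ n ∈ Ioc N N', f n = ∑ l ∈ range (N' - N), f (N + 1 + l) := by
  have h : Ioc N N' = Ico (N + 1) (N' + 1) := by
    ext a
    simp only [mem_Ioc, mem_Ico]
    omega
  rw [h, sum_Ico_eq_sum_range]
  congr 2
  omega

/-- the sign of `Y` -/
lemma norm_sum_abs (Y : ℝ) (s : Finset ℕ) : ‖∑ n ∈ s, E Y n‖ = ‖∑ n ∈ s, E |Y| n‖ := by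
  rcases le_total 0 Y with h | h
  · rw [abs_of_nonneg h]
  · rw [abs_of_nonpos h]
    have h1 : ∑ n ∈ s, E (-Y) n = (starRingEnd ℂ) (∑ n ∈ s, E Y n) := by
      rw [map_sum]
      refine sum_congr rfl fun n _ => ?_
      unfold E
      rw [← Complex.exp_conj, map_mul, Complex.conj_I, Complex.conj_ofReal]
      congr 1
      push_cast
      ring
    rw [h1, RCLike.norm_conj]

/-- Kusmin–Landau range -/
lemma kl_range (N N' : ℕ) (Y : ℝ) (hN : 1 ≤ N) (hNN : N ≤ N') (hN2 : N' ≤ 2 * N) (hY : 0 < |Y|)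
    (hY2 : 2 * |Y| ≤ (N : ℝ) ^ 2) : ‖∑ n ∈ Ioc N N', E Y n‖ ≤ 18 * (N : ℝ) ^ 2 / |Y| := by
  have hN0 : (0 : ℝ) < N := by exact_mod_cast hN
  have h1 := Pool.Agent.H469R2.NK.SS_le |Y| hY N (N + 1) (N' - N) hN (by omega) (by omega) [] (by simp) (by
    simp only [List.length_nil, zero_add, Nat.factorial_one, Nat.cast_one, List.prod_nil, mul_one]
    rw [mul_one_div, ← mul_div_assoc, div_le_one (by positivity)]
    exact hY2)
  simp only [List.length_nil, zero_add, Nat.factorial_one, Nat.cast_one, List.prod_nil, mul_one] at h1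
  rw [norm_sum_abs, sum_Ioc_range]
  have h2 : ∑ l ∈ range (N' - N), E |Y| (N + 1 + l) =
      Pool.Agent.H469R2.NK.SS |Y| (N + 1) (N' - N) [] := by
    unfold Pool.Agent.H469R2.NK.SS
    simp only [List.sum_nil, Nat.sub_zero]
    refine sum_congr rfl fun l _ => ?_
    unfold E Pool.Agent.H469R2.NK.e
    simp only [Pool.Agent.H469R2.NK.D, pow_zero, Nat.factorial_zero, Nat.cast_one, mul_one, zero_add,
      pow_one]
    rw [mul_one_div, mul_comm]
  rw [h2]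
  refine h1.trans (le_of_eq ?_)
  ring

/-- **The sums of `e(Y / n)`.** -/
theorem expV (ρ : ℝ) (hρ0 : 0 < ρ) (hρ : ρ < 1) : ∃ δ : ℝ, 0 < δ ∧ δ ≤ 1 ∧
    ∀ᶠ N : ℕ in atTop, ∀ (N' : ℕ) (Y : ℝ), N ≤ N' → N' ≤ 2 * N →
      N * Real.exp (2 * Real.log N ^ ρ) ≤ |Y| →
      |Y| ≤ Real.exp (Real.log N ^ (1 + δ)) →
      ‖∑ n ∈ Ioc N N', E Y n‖ ≤ N * Real.exp (-(Real.log N ^ ρ)) := by
  obtain ⟨C, c, hc0, hc1, hZ⟩ := zsE
  obtain ⟨δ, hδ⟩ : ∃ δ : ℝ, δ = min ((1 - ρ) / 4) (1 / (2 * (C + 4))) := ⟨_, rfl⟩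
  have hC0 : (0 : ℝ) ≤ C := Nat.cast_nonneg C
  have hδ0 : 0 < δ := by
    rw [hδ]
    exact lt_min (by linarith) (by positivity)
  have hδ1 : δ ≤ (1 - ρ) / 4 := by rw [hδ]; exact min_le_left _ _
  have hδ2 : δ ≤ 1 / (2 * (C + 4)) := by rw [hδ]; exact min_le_right _ _
  have hδ3 : δ * (2 * (C + 4)) ≤ 1 := by
    rwa [le_div_iff₀ (by positivity)] at hδ2
  have hδ4 : 8 * δ ≤ 1 := by nlinarith [mul_nonneg hδ0.le hC0]
  have hδC : δ * C ≤ 1 / 2 := by nlinarith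
  refine ⟨δ, hδ0, by linarith, ?_⟩
  have e1 := logN_tendsto.eventually (ev_pow (C : ℝ) (c / 2) (δ * C) (1 - 2 * δ) (by positivity)
    (by linarith))
  have e2 := logN_tendsto.eventually (ev_pow 1 (c / 2) ρ (1 - 2 * δ) (by positivity)
    (by linarith))
  have e3 := logN_tendsto.eventually (ev_pow (Real.log 18) 1 0 ρ (by norm_num) hρ0)
  have e5 := logN_tendsto.eventually (eventually_ge_atTop 2)
  filter_upwards [e1, e2, e3, e5, eventually_ge_atTop 2] with N h1 h2 h3 h5 hN N' Y hNN hN2 hY1 hY2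
  have hN1 : (1 : ℝ) ≤ N := by exact_mod_cast (by omega : 1 ≤ N)
  have hN0 : (0 : ℝ) < N := by linarith
  obtain ⟨L, hL⟩ : ∃ L : ℝ, L = Real.log N := ⟨_, rfl⟩
  rw [← hL] at h1 h2 h3 h5 hY1 hY2 ⊢
  have hL0 : 0 < L := by linarith
  have hexpN : ∀ a : ℝ, (N : ℝ) ^ a = Real.exp (a * L) := by
    intro a
    rw [Real.rpow_def_of_pos hN0, hL, mul_comm]
  have hNexp : (N : ℝ) = Real.exp L := by rw [hL, Real.exp_log hN0]
  have hYpos : 0 < |Y| := lt_of_lt_of_le (by positivity) hY1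
  rcases le_or_gt |Y| ((N : ℝ) ^ (3 / 2 : ℝ)) with hcase | hcase
  · have hY3 : 2 * |Y| ≤ (N : ℝ) ^ 2 := by
      have h6 : (2 : ℝ) ≤ (N : ℝ) ^ (1 / 2 : ℝ) := by
        rw [hexpN]
        have h7 : (1 : ℝ) + 1 ≤ Real.exp (1 : ℝ) := Real.add_one_le_exp 1
        have h8 : Real.exp (1 : ℝ) ≤ Real.exp (1 / 2 * L) := Real.exp_le_exp.2 (by linarith)
        linarith
      calc 2 * |Y| ≤ (N : ℝ) ^ (1 / 2 : ℝ) * (N : ℝ) ^ (3 / 2 : ℝ) := by gcongr
        _ = (N : ℝ) ^ 2 := by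
          rw [← Real.rpow_add hN0, ← Real.rpow_natCast]
          norm_num
    refine (kl_range N N' Y (by omega) hNN hN2 hYpos hY3).trans ?_
    rw [div_le_iff₀ hYpos]
    rw [Real.rpow_zero, mul_one, one_mul] at h3
    calc 18 * (N : ℝ) ^ 2 = N * (18 * N) := by ring
      _ ≤ N * (Real.exp (L ^ ρ) * N) := by
        gcongr
        calc (18 : ℝ) = Real.exp (Real.log 18) := (Real.exp_log (by norm_num)).symm
          _ ≤ _ := Real.exp_le_exp.2 h3
      _ = N * Real.exp (-(L ^ ρ)) * (N * Real.exp (2 * L ^ ρ)) := by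
        have h6 : Real.exp (L ^ ρ) = Real.exp (-(L ^ ρ)) * Real.exp (2 * L ^ ρ) := by
          rw [← Real.exp_add]
          congr 1
          ring
        rw [h6]
        ring
      _ ≤ N * Real.exp (-(L ^ ρ)) * |Y| := by gcongr
  · obtain ⟨κ, hκ⟩ : ∃ κ : ℝ, κ = Real.log |Y| / L - 1 := ⟨_, rfl⟩
    have hκ1 : Real.log |Y| = (κ + 1) * L := by
      rw [hκ]
      field_simp
      ring
    have hYκ : |Y| = (N : ℝ) ^ (κ + 1) := by
      rw [hexpN, ← hκ1, Real.exp_log hYpos]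
    have hκ2 : 1 / 2 ≤ κ := by
      have h6 := Real.log_lt_log (by positivity) hcase
      rw [Real.log_rpow hN0, ← hL, hκ1] at h6
      have h7 : 3 / 2 < κ + 1 := lt_of_mul_lt_mul_right h6 hL0.le
      linarith
    have hκ3 : κ + 1 ≤ L ^ δ := by
      have h6 := Real.log_le_log hYpos hY2
      rw [Real.log_exp, hκ1, Real.rpow_add hL0, Real.rpow_one, mul_comm] at h6
      exact le_of_mul_le_mul_left h6 hL0
    refine (hZ N N' Y κ hN hNN hN2 hκ2 hYκ).trans ?_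
    have hκ4 : 0 < 1 + κ := by linarith
    have h6 : (C : ℝ) * (1 + κ) ^ C ≤ C * L ^ (δ * C) := by
      refine mul_le_mul_of_nonneg_left ?_ hC0
      calc (1 + κ) ^ C ≤ (L ^ δ) ^ C := pow_le_pow_left₀ hκ4.le (by linarith) _
        _ = L ^ (δ * C) := by rw [← Real.rpow_natCast, ← Real.rpow_mul hL0.le]
    have h7 : c * L ^ (1 - 2 * δ) ≤ c / (1 + κ) ^ 2 * L := by
      have h8 : (1 + κ) ^ 2 ≤ L ^ (2 * δ) := by
        calc (1 + κ) ^ 2 ≤ (L ^ δ) ^ 2 := pow_le_pow_left₀ hκ4.le (by linarith) _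
          _ = L ^ (2 * δ) := by
            rw [← Real.rpow_natCast, ← Real.rpow_mul hL0.le]
            congr 1
            push_cast
            ring
      rw [div_mul_eq_mul_div, le_div_iff₀ (by positivity)]
      have h9 : L ^ (1 - 2 * δ) * L ^ (2 * δ) = L := by
        rw [← Real.rpow_add hL0]
        simp
      calc c * L ^ (1 - 2 * δ) * (1 + κ) ^ 2 ≤ c * L ^ (1 - 2 * δ) * L ^ (2 * δ) := by gcongr
        _ = c * (L ^ (1 - 2 * δ) * L ^ (2 * δ)) := by ring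
        _ = c * L := by rw [h9]
    calc Real.exp (C * (1 + κ) ^ C) * (N : ℝ) ^ (1 - c / (1 + κ) ^ 2 : ℝ)
        = Real.exp (C * (1 + κ) ^ C + (L - c / (1 + κ) ^ 2 * L)) := by
          rw [hexpN, ← Real.exp_add]
          congr 1
          ring
      _ ≤ Real.exp (L + -(L ^ ρ)) := by
          apply Real.exp_le_exp.2
          rw [one_mul] at h2
          linarith
      _ = N * Real.exp (-(L ^ ρ)) := by rw [Real.exp_add, hNexp]

end Pool.Agent.Helper12K9.QU
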