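import Pool.Agent.Helper12K9.QU.Vk3
import Pool.Agent.TH869.LPD.Disc
import Pool.Agent.TH869.LPD.Words

/-!
# The digits of the quotients `x / m + y`: blocks of digits
-/

set_option autoImplicit false

namespace Pool.Agent.Helper12K9.QU

open Finset Filter Topology
open Pool.Agent.W226.MP Pool.Agent.TH869.LPD

/-- the quotients `x / m + y`, `m = N + 1, N + 2, …` -/
noncomputable def qs (x y : ℝ) (N l : ℕ) : ℝ := x / ((N + 1 + l : ℕ) : ℝ) + y

/-- exponential sums over the quotients -/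
lemma sum_qs (x y c : ℝ) (N : ℕ) :
    ‖∑ l ∈ range N, Pool.Agent.H332R2.Lit.e (c * qs x y N l)‖ = ‖∑ n ∈ Ioc N (2 * N), E (c * x) n‖ := by
  have h1 : ∑ l ∈ range N, Pool.Agent.H332R2.Lit.e (c * qs x y N l) =
      Pool.Agent.H332R2.Lit.e (c * y) * ∑ n ∈ Ioc N (2 * N), E (c * x) n := by
    rw [sum_Ioc_range, show 2 * N - N = N by omega, mul_sum]
    refine sum_congr rfl fun l _ => ?_
    have h2 : c * qs x y N l = c * y + c * x / ((N + 1 + l : ℕ) : ℝ) := by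
      unfold qs
      ring
    rw [h2, Pool.Agent.H332R2.Lit.e_add]
    congr 1
    unfold Pool.Agent.H332R2.Lit.e E
    congr 1
    push_cast
    ring
  rw [h1, norm_mul]
  have h3 : ‖Pool.Agent.H332R2.Lit.e (c * y)‖ = 1 := by
    unfold Pool.Agent.H332R2.Lit.e
    rw [show (2 * (Real.pi : ℂ) * ((c * y : ℝ) : ℂ) * Complex.I) =
      ((2 * Real.pi * (c * y) : ℝ) : ℂ) * Complex.I by push_cast; ring]
    exact Complex.norm_exp_ofReal_mul_I _
  rw [h3, one_mul]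

/-- cells -/
lemma cellQ (b L : ℕ) (hb : 2 ≤ b) (u N : ℕ) (x y S : ℝ) (hS0 : 0 ≤ S)
    (hS : ∀ h : ℤ, h ≠ 0 → |h| < (((b ^ L) ^ 3 : ℕ) : ℤ) →
      ‖∑ n ∈ Ioc N (2 * N), E (h * (b : ℝ) ^ u * x) n‖ ≤ S) (z : ℕ) (hz : z < b ^ L) :
    (((range N).filter (fun l : ℕ =>
      ⌊Int.fract (qs x y N l * (b : ℝ) ^ u) * ((b ^ L : ℕ) : ℝ)⌋₊ = z)).card : ℝ) ≤
      5 * N / (b : ℝ) ^ L + ((b : ℝ) ^ L) ^ 3 * S := by
  classical
  have hb0 : (0 : ℝ) < b := by exact_mod_cast (by omega : 0 < b)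
  have hbL : (0 : ℝ) < (b : ℝ) ^ L := by positivity
  have hz1 : (z : ℝ) + 1 ≤ (b : ℝ) ^ L := by exact_mod_cast hz
  have hm : 1 ≤ b ^ L := Nat.one_le_pow _ _ (by omega)
  have h1 := disc (b ^ L) hm (fun l => qs x y N l * (b : ℝ) ^ u) N S hS0 (fun h hh hlt => by
    have h2 := hS h hh hlt
    refine le_trans (le_of_eq ?_) h2
    rw [← sum_qs x y (h * (b : ℝ) ^ u) N]
    congr 1
    refine sum_congr rfl fun l _ => ?_
    congr 1
    ring) (z / (b : ℝ) ^ L) ((z + 1) / (b : ℝ) ^ L) (by positivity) (by gcongr; linarith)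
    (by rw [div_le_one hbL]; exact hz1)
  have h2 := (abs_le.1 h1).2
  have h3 : (((z : ℝ) + 1) / (b : ℝ) ^ L - z / (b : ℝ) ^ L) * N = N / (b : ℝ) ^ L := by ring
  rw [h3] at h2
  have h4 : (((range N).filter (fun l : ℕ =>
      ⌊Int.fract (qs x y N l * (b : ℝ) ^ u) * ((b ^ L : ℕ) : ℝ)⌋₊ = z)).card : ℝ) ≤
      (((range N).filter (fun l : ℕ => (z : ℝ) / (b : ℝ) ^ L ≤ Int.fract (qs x y N l * (b : ℝ) ^ u) ∧
        Int.fract (qs x y N l * (b : ℝ) ^ u) < (z + 1) / (b : ℝ) ^ L)).card : ℝ) := by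
    have : (range N).filter (fun l : ℕ =>
      ⌊Int.fract (qs x y N l * (b : ℝ) ^ u) * ((b ^ L : ℕ) : ℝ)⌋₊ = z) ⊆
      (range N).filter (fun l : ℕ => (z : ℝ) / (b : ℝ) ^ L ≤ Int.fract (qs x y N l * (b : ℝ) ^ u) ∧
        Int.fract (qs x y N l * (b : ℝ) ^ u) < (z + 1) / (b : ℝ) ^ L) := by
      intro l hl
      rw [mem_filter] at hl ⊢
      refine ⟨hl.1, ?_⟩
      have h5 := hl.2
      rw [Nat.floor_eq_iff (mul_nonneg (Int.fract_nonneg _) (Nat.cast_nonneg _))] at h5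
      rw [div_le_iff₀ hbL, lt_div_iff₀ hbL]
      push_cast at h5
      exact h5
    exact_mod_cast card_le_card this
  refine h4.trans ?_
  push_cast at h2
  have h5 : 5 * (N : ℝ) / (b : ℝ) ^ L = N / (b : ℝ) ^ L + 4 * N / (b : ℝ) ^ L := by ring
  rw [h5]
  linarith

open Classical in
/-- one block of digits -/
theorem blockQ (b k L u N : ℕ) (hb : 2 ≤ b) (hk : 1 ≤ k) (hkL : k ≤ L) (x y S : ℝ) (hS0 : 0 ≤ S)
    (hS : ∀ h : ℤ, h ≠ 0 → |h| < (((b ^ L) ^ 3 : ℕ) : ℤ) →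
      ‖∑ n ∈ Ioc N (2 * N), E (h * (b : ℝ) ^ u * x) n‖ ≤ S)
    (hSN : ((b : ℝ) ^ L) ^ 4 * S ≤ N) (ε : ℝ) (hε : 0 < ε) (hε1 : ε ≤ 1) :
    (((range N).filter (fun l : ℕ => ∃ w : Fin k → Fin b, ε * (L + 1 - k : ℕ) + k <
      |(occ b k w (qs x y N l) u (L + 1 - k) : ℝ) - (L + 1 - k : ℕ) / (b : ℝ) ^ k|)).card : ℝ)
      ≤ 12 * k * (b : ℝ) ^ k * Real.exp (-(ε ^ 2 / 4) * ((L + 1 - k) / k : ℕ)) * N := by
  have hb0 : (0 : ℝ) < b := by exact_mod_cast (by omega : 0 < b)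
  have hbL : (0 : ℝ) < (b : ℝ) ^ L := by positivity
  have h1 := freqG b k L hb hk hkL u N (qs x y N)
    (5 * N / (b : ℝ) ^ L + ((b : ℝ) ^ L) ^ 3 * S) (by positivity)
    (fun z hz => cellQ b L hb u N x y S hS0 hS z hz) ε hε hε1 ((range N).filter (fun l : ℕ =>
      ∃ w : Fin k → Fin b, ε * (L + 1 - k : ℕ) + k <
      |(occ b k w (qs x y N l) u (L + 1 - k) : ℝ) - (L + 1 - k : ℕ) / (b : ℝ) ^ k|)) (by
        intro m hm
        rw [Finset.mem_filter, Finset.mem_range] at hm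
        obtain ⟨hmM, w, hw⟩ := hm
        refine ⟨hmM, ext b k w, ext_lt b k hb w, ?_⟩
        have e : ((range (L + 1 - k)).filter (fun j =>
            ∀ s' < k, ⌊(qs x y N m) * (b : ℝ) ^ (u + j + s' + 1)⌋ % (b : ℤ) =
              ext b k w s')).card
            = occ b k w (qs x y N m) u (L + 1 - k) := by
          unfold occ
          congr 1
          apply Finset.filter_congr
          intro j _
          exact (occursAt_iff b k w (qs x y N m) (u + j)).symm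
        rw [e]
        exact hw)
  refine h1.trans ?_
  have h2 : (b : ℝ) ^ L * (5 * N / (b : ℝ) ^ L + ((b : ℝ) ^ L) ^ 3 * S) ≤ 6 * N := by
    have h3 : (b : ℝ) ^ L * (5 * N / (b : ℝ) ^ L + ((b : ℝ) ^ L) ^ 3 * S) =
        5 * N + ((b : ℝ) ^ L) ^ 4 * S := by
      field_simp
    rw [h3]
    linarith
  calc 2 * k * (b : ℝ) ^ k * Real.exp (-(ε ^ 2 / 4) * ((L + 1 - k) / k : ℕ)) *
        ((b : ℝ) ^ L * (5 * N / (b : ℝ) ^ L + ((b : ℝ) ^ L) ^ 3 * S))
      ≤ 2 * k * (b : ℝ) ^ k * Real.exp (-(ε ^ 2 / 4) * ((L + 1 - k) / k : ℕ)) * (6 * N) := by gcongr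
    _ = _ := by ring

section grid

variable (P : ℕ → Prop) [DecidablePred P]

/-- the number of the places in `[u, v)` with the property `P` -/
def cn (u v : ℕ) : ℕ := ((Ico u v).filter P).card

lemma cn_add (u v w : ℕ) (h1 : u ≤ v) (h2 : v ≤ w) : cn P u w = cn P u v + cn P v w := by
  unfold cn
  simp only [card_filter]
  exact (sum_Ico_consecutive _ h1 h2).symm

lemma cn_le (u v : ℕ) : cn P u v ≤ v - u := by
  unfold cn
  refine (card_filter_le _ _).trans ?_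
  rw [Nat.card_Ico]

/-- **From the blocks of a grid to all windows.** -/
theorem gridQ (l : ℕ) (hl : 1 ≤ l) (c e : ℝ) (hc0 : 0 ≤ c) (hc1 : c ≤ 1) (he : 0 ≤ e) (u v : ℕ)
    (huv : u ≤ v)
    (hg : ∀ t : ℕ, u ≤ t * l → (t + 1) * l ≤ v → |(cn P (t * l) (t * l + l) : ℝ) - l * c| ≤ e) :
    |(cn P u v : ℝ) - (v - u : ℕ) * c| ≤ 4 * l + e * ((v - u : ℕ) / l) := by
  have hlr : (1 : ℝ) ≤ l := by exact_mod_cast hl
  have hl0 : (0 : ℝ) < l := by linarith
  obtain ⟨T0, hT0⟩ : ∃ T0 : ℕ, T0 = (u + l - 1) / l := ⟨_, rfl⟩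
  obtain ⟨T1, hT1⟩ : ∃ T1 : ℕ, T1 = v / l := ⟨_, rfl⟩
  have h0a : u ≤ T0 * l := by
    have := Nat.lt_div_mul_add (a := u + l - 1) (b := l) (by omega)
    rw [← hT0] at this
    omega
  have h0b : T0 * l ≤ u + l - 1 := by
    rw [hT0]
    exact Nat.div_mul_le_self _ _
  have h1a : T1 * l ≤ v := by
    rw [hT1]
    exact Nat.div_mul_le_self _ _
  have h1b : v < T1 * l + l := by
    have := Nat.lt_div_mul_add (a := v) (b := l) (by omega)
    rwa [← hT1] at this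
  have hvu0 : (0 : ℝ) ≤ ((v - u : ℕ) : ℝ) := Nat.cast_nonneg _
  have hbd : ∀ a b' : ℕ, a ≤ b' → |(cn P a b' : ℝ) - (b' - a : ℕ) * c| ≤ (b' - a : ℕ) := by
    intro a b' _
    have h1 : (cn P a b' : ℝ) ≤ (b' - a : ℕ) := by exact_mod_cast cn_le P a b'
    have h2 : (0 : ℝ) ≤ cn P a b' := Nat.cast_nonneg _
    have h3 : (0 : ℝ) ≤ ((b' - a : ℕ) : ℝ) := Nat.cast_nonneg _
    rw [abs_le]
    constructor <;> nlinarith
  rcases Nat.lt_or_ge T0 T1 with hT | hT
  · -- the blocks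
    have key : ∀ n : ℕ, T0 + n ≤ T1 →
        |(cn P (T0 * l) ((T0 + n) * l) : ℝ) - n * (l * c)| ≤ n * e := by
      intro n
      induction n with
      | zero =>
        intro _
        have : cn P (T0 * l) ((T0 + 0) * l) = 0 := by
          unfold cn
          simp
        rw [this]
        simp
      | succ n ih =>
        intro hn
        have h1 := ih (by omega)
        have h2 := hg (T0 + n) (h0a.trans (Nat.mul_le_mul_right _ (by omega)))
          ((Nat.mul_le_mul_right _ (by omega : T0 + n + 1 ≤ T1)).trans h1a)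
        have e1 : (T0 + (n + 1)) * l = (T0 + n) * l + l := by ring
        have h3 := cn_add P (T0 * l) ((T0 + n) * l) ((T0 + n) * l + l)
          (Nat.mul_le_mul_right _ (by omega)) (by omega)
        rw [e1, h3]
        push_cast
        rw [abs_le] at h1 h2 ⊢
        constructor <;> linarith [h1.1, h1.2, h2.1, h2.2]
    obtain ⟨n, hn⟩ : ∃ n : ℕ, T1 = T0 + n := ⟨T1 - T0, by omega⟩
    have h1 := key n (by omega)
    rw [← hn] at h1
    have h2 := cn_add P u (T0 * l) v h0a (by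
      exact (Nat.mul_le_mul_right l hT.le).trans h1a)
    have h3 := cn_add P (T0 * l) (T1 * l) v (Nat.mul_le_mul_right l hT.le) h1a
    have h4 := hbd u (T0 * l) h0a
    have h5 := hbd (T1 * l) v h1a
    have h6 : ((T0 * l - u : ℕ) : ℝ) ≤ l := by
      exact_mod_cast (by omega : T0 * l - u ≤ l)
    have h7 : ((v - T1 * l : ℕ) : ℝ) ≤ l := by
      exact_mod_cast (by omega : v - T1 * l ≤ l)
    have h8 : ((v - u : ℕ) : ℝ) = ((T0 * l - u : ℕ) : ℝ) + n * l + ((v - T1 * l : ℕ) : ℝ) := by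
      have : v - u = (T0 * l - u) + n * l + (v - T1 * l) := by
        have e1 : T1 * l = T0 * l + n * l := by rw [hn]; ring
        omega
      rw [this]
      push_cast
      ring
    have h9 : (n : ℝ) ≤ (v - u : ℕ) / l := by
      rw [le_div_iff₀ hl0, h8]
      have a1 : (0 : ℝ) ≤ ((T0 * l - u : ℕ) : ℝ) := Nat.cast_nonneg _
      have a2 : (0 : ℝ) ≤ ((v - T1 * l : ℕ) : ℝ) := Nat.cast_nonneg _
      linarith
    have h10 : (n : ℝ) * e ≤ e * ((v - u : ℕ) / l) := by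
      rw [mul_comm]
      exact mul_le_mul_of_nonneg_left h9 he
    rw [h2, h3]
    push_cast
    rw [h8]
    rw [abs_le] at h1 h4 h5 ⊢
    rw [h8] at h10
    constructor <;> linarith [h1.1, h1.2, h4.1, h4.2, h5.1, h5.2]
  · have h1 := hbd u v huv
    have h2 : ((v - u : ℕ) : ℝ) ≤ 2 * l := by
      have h3 : T1 * l ≤ T0 * l := Nat.mul_le_mul_right l hT
      exact_mod_cast (by omega : v - u ≤ 2 * l)
    have h3 : 0 ≤ e * ((v - u : ℕ) / l) := by positivity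
    linarith

end grid

end Pool.Agent.Helper12K9.QU
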