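import Pool.Agent.Helper12K9.QU.Vk4
import Pool.Agent.Helper21K9.PM.Words

/-!
# The digits of the quotients `x / m + y`: all windows
-/

set_option autoImplicit false

namespace Pool.Agent.Helper12K9.QU

open Finset Filter Topology
open Pool.Agent.W226.MP Pool.Agent.TH869.LPD

/-- the word of `k` digits with the value `W` stands in `z` right after the `j`-th digit -/
def St (b k W : ℕ) (z : ℝ) (j : ℕ) : Prop := ⌊(b : ℝ) ^ (j + k) * z⌋ % ((b : ℤ) ^ k) = (W : ℤ)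

open Classical in
/-- `m` is bad: a window of the digits of `x / m + y` has a wrong frequency of a word -/
def Bad (θ δ ε : ℝ) (b k : ℕ) (x y : ℝ) (m : ℕ) : Prop :=
  ∃ u v W : ℕ, Real.log m / Real.log b ≤ u ∧ (u : ℝ) + Real.log m ^ θ ≤ v ∧
    (v : ℝ) ≤ Real.log m ^ (1 + δ) ∧ W < b ^ k ∧
    ε * (v - u) < |(((Ico u v).filter (fun j => St b k W (x / m + y) j)).card : ℝ) - (v - u) / (b : ℝ) ^ k|

/-- numerical conditions for large `N` -/
structure Big (θ τ σ ρ ρ₂ δ δ' ε ε' : ℝ) (b k : ℕ) (x : ℝ) (N : ℕ) : Prop where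
  one : 1 ≤ Real.log N
  two : 2 ≤ N
  c1 : 4 * ((k : ℝ) + Real.log N ^ τ) * Real.log b ≤ Real.log N ^ ρ
  c2 : (3 * ((k : ℝ) + Real.log N ^ τ) + (2 * Real.log N) ^ (1 + δ')) * Real.log b + |Real.log (|x|)| ≤
    Real.log N ^ (1 + δ)
  c3 : 2 * Real.log N ^ ρ + |Real.log (|x|)| ≤ Real.log N ^ ρ₂ * Real.log b
  c4 : 64 / ε * (Real.log N ^ τ) ≤ Real.log N ^ θ
  c4b : 4 / ε * (Real.log N ^ ρ₂ + 1) ≤ Real.log N ^ θ
  c4c : 2 * (Real.log N ^ ρ₂ + 1) ≤ Real.log N ^ θ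
  c5 : 1 + 8 * k / ε + k ≤ Real.log N ^ τ
  c6 : (5 * Real.log N ^ 2) * (12 * k * (b : ℝ) ^ k) ≤ Real.exp (Real.log N ^ σ)
  c7 : 2 * Real.log N ^ σ ≤ ε' ^ 2 / 4 * ((Real.log N ^ τ - 1) / k - 1)

lemma big_ev (θ τ σ ρ ρ₂ δ δ' ε ε' : ℝ) (b k : ℕ) (x : ℝ) (hk : 1 ≤ k) (hb : 2 ≤ b) (hε : 0 < ε)
    (hε' : 0 < ε')
    (hσ : 0 < σ) (hστ : σ < τ) (hτρ : τ < ρ) (hρρ : ρ < ρ₂) (hρθ : ρ₂ < θ) (hτ1 : τ < 1)
    (hδ' : 0 < δ') (hδ : δ' < δ) :
    ∀ᶠ N : ℕ in atTop, Big θ τ σ ρ ρ₂ δ δ' ε ε' b k x N := by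
  have hk0 : (0 : ℝ) < k := by exact_mod_cast hk
  have hτ0 : 0 < τ := by linarith
  have hlb : 0 ≤ Real.log b := Real.log_natCast_nonneg b
  have e1 : ∀ᶠ L : ℝ in atTop, 4 * ((k : ℝ) + L ^ τ) * Real.log b ≤ L ^ ρ := by
    filter_upwards [ev_pow (4 * Real.log b) (1 / 2) τ ρ (by norm_num) hτρ,
      ev_pow (4 * k * Real.log b) (1 / 2) 0 ρ (by norm_num) (by linarith)] with L h1 h2
    rw [Real.rpow_zero, mul_one] at h2
    linarith
  have e2 : ∀ᶠ L : ℝ in atTop, (3 * ((k : ℝ) + L ^ τ) + (2 * L) ^ (1 + δ')) * Real.log b +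
      |Real.log (|x|)| ≤ L ^ (1 + δ) := by
    filter_upwards [ev_pow (3 * Real.log b) (1 / 4) τ (1 + δ) (by norm_num) (by linarith),
      ev_pow (3 * k * Real.log b) (1 / 4) 0 (1 + δ) (by norm_num) (by linarith),
      ev_pow (2 ^ (1 + δ') * Real.log b) (1 / 4) (1 + δ') (1 + δ) (by norm_num) (by linarith),
      ev_pow (|Real.log (|x|)|) (1 / 4) 0 (1 + δ) (by norm_num) (by linarith),
      eventually_ge_atTop 0] with L h1 h2 h3 h4 h5
    rw [Real.rpow_zero, mul_one] at h2 h4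
    rw [Real.mul_rpow (by norm_num) h5]
    linarith
  have hlb1 : 0 < Real.log b := Real.log_pos (by exact_mod_cast (by omega : 1 < b))
  have e3 : ∀ᶠ L : ℝ in atTop, 2 * L ^ ρ + |Real.log (|x|)| ≤ L ^ ρ₂ * Real.log b := by
    filter_upwards [ev_pow 2 (Real.log b / 2) ρ ρ₂ (by positivity) hρρ,
      ev_pow (|Real.log (|x|)|) (Real.log b / 2) 0 ρ₂ (by positivity) (by linarith)] with L h1 h2
    rw [Real.rpow_zero, mul_one] at h2
    linarith
  have e4 : ∀ᶠ L : ℝ in atTop, 64 / ε * (L ^ τ) ≤ L ^ θ := by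
    filter_upwards [ev_pow (64 / ε) 1 τ θ (by norm_num) (by linarith)] with L h1
    linarith
  have e4b : ∀ᶠ L : ℝ in atTop, 4 / ε * (L ^ ρ₂ + 1) ≤ L ^ θ := by
    filter_upwards [ev_pow (4 / ε) (1 / 2) ρ₂ θ (by norm_num) hρθ,
      ev_pow (4 / ε) (1 / 2) 0 θ (by norm_num) (by linarith)] with L h1 h2
    rw [Real.rpow_zero, mul_one] at h2
    linarith
  have e4c : ∀ᶠ L : ℝ in atTop, 2 * (L ^ ρ₂ + 1) ≤ L ^ θ := by
    filter_upwards [ev_pow 2 (1 / 2) ρ₂ θ (by norm_num) hρθ,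
      ev_pow 2 (1 / 2) 0 θ (by norm_num) (by linarith)] with L h1 h2
    rw [Real.rpow_zero, mul_one] at h2
    linarith
  have e5 : ∀ᶠ L : ℝ in atTop, 1 + 8 * k / ε + k ≤ L ^ τ := by
    filter_upwards [ev_pow (1 + 8 * k / ε + k) 1 0 τ (by norm_num) hτ0] with L h1
    simpa using h1
  have e6 : ∀ᶠ L : ℝ in atTop, (5 * L ^ 2) * (12 * k * (b : ℝ) ^ k) ≤ Real.exp (L ^ σ) := by
    have h0 : Tendsto (fun L : ℝ => L ^ σ) atTop atTop := tendsto_rpow_atTop hσ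
    have h1 := (h0.eventually ((Real.isLittleO_pow_exp_atTop (n := ⌈2 / σ⌉₊ + 1)).bound
      (show (0 : ℝ) < 1 / (60 * k * (b : ℝ) ^ k) by positivity)))
    filter_upwards [h1, eventually_ge_atTop 1] with L h2 h3
    have hL0 : 0 < L := by linarith
    rw [Real.norm_of_nonneg (by positivity), Real.norm_of_nonneg (Real.exp_pos _).le] at h2
    have h4 : L ^ 2 ≤ (L ^ σ) ^ (⌈2 / σ⌉₊ + 1) := by
      rw [← Real.rpow_natCast (L ^ σ), ← Real.rpow_mul hL0.le, ← Real.rpow_natCast L 2]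
      apply Real.rpow_le_rpow_of_exponent_le h3
      push_cast
      have h5 := Nat.le_ceil (2 / σ)
      have h6 : σ * (2 / σ) = 2 := by field_simp
      calc (2 : ℝ) = σ * (2 / σ) := h6.symm
        _ ≤ σ * ((⌈2 / σ⌉₊ : ℝ) + 1) := mul_le_mul_of_nonneg_left (by linarith) hσ.le
    have h5 : (0 : ℝ) < 60 * k * (b : ℝ) ^ k := by positivity
    rw [div_mul_eq_mul_div, one_mul, le_div_iff₀ h5] at h2
    calc (5 * L ^ 2) * (12 * k * (b : ℝ) ^ k) = L ^ 2 * (60 * k * (b : ℝ) ^ k) := by ring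
      _ ≤ (L ^ σ) ^ (⌈2 / σ⌉₊ + 1) * (60 * k * (b : ℝ) ^ k) := by gcongr
      _ ≤ _ := h2
  have e7 : ∀ᶠ L : ℝ in atTop, 2 * L ^ σ ≤ ε' ^ 2 / 4 * ((L ^ τ - 1) / k - 1) := by
    filter_upwards [ev_pow 2 (ε' ^ 2 / (8 * k)) σ τ (by positivity) hστ,
      ev_pow (ε' ^ 2 / 4 * (1 / k + 1)) (ε' ^ 2 / (8 * k)) 0 τ (by positivity) hτ0] with L h1 h2
    rw [Real.rpow_zero, mul_one] at h2
    have h3 : ε' ^ 2 / 4 * ((L ^ τ - 1) / k - 1) = ε' ^ 2 / (8 * k) * L ^ τ + ε' ^ 2 / (8 * k) * L ^ τ -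
        ε' ^ 2 / 4 * (1 / k + 1) := by
      field_simp
      ring
    rw [h3]
    linarith
  filter_upwards [logN_tendsto.eventually e1, logN_tendsto.eventually e2, logN_tendsto.eventually e3,
    logN_tendsto.eventually e4, logN_tendsto.eventually e4b, logN_tendsto.eventually e4c,
    logN_tendsto.eventually e5, logN_tendsto.eventually e6,
    logN_tendsto.eventually e7, logN_tendsto.eventually_ge_atTop 1, eventually_ge_atTop 2]
    with N h1 h2 h3 h4 h4b h4c h5 h6 h7 h8 h9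
  exact ⟨h8, h9, h1, h2, h3, h4, h4b, h4c, h5, h6, h7⟩

open Classical in
/-- a bad block -/
def BadB (b k l : ℕ) (e : ℝ) (z : ℝ) (t : ℕ) : Prop :=
  ∃ w : Fin k → Fin b, e * l + k < |(occ b k w z (t * l) l : ℝ) - l / (b : ℝ) ^ k|

lemma St_iff (b k W : ℕ) (w : Fin k → Fin b) (hb : 2 ≤ b) (hw : val b (ext b k w) k = W) (z : ℝ)
    (j : ℕ) : St b k W z j ↔ OccursAt b k w z j := by
  rw [Pool.Agent.Helper21K9.PM.occursAt_val b k hb w z j, hw]
  unfold St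
  rw [mul_comm]

/-- counts are between `0` and the length -/
lemma cn_abs (P : ℕ → Prop) [DecidablePred P] (a b' : ℕ) (h : a ≤ b') (c : ℝ) (hc0 : 0 ≤ c)
    (hc1 : c ≤ 1) : |(cn P a b' : ℝ) - ((b' : ℝ) - a) * c| ≤ (b' : ℝ) - a := by
  have h1 : (cn P a b' : ℝ) ≤ (b' : ℝ) - a := by
    rw [← Nat.cast_sub h]
    exact_mod_cast cn_le P a b'
  have h2 : (0 : ℝ) ≤ cn P a b' := Nat.cast_nonneg _
  have h3 : (0 : ℝ) ≤ (b' : ℝ) - a := by
    have : (a : ℝ) ≤ b' := by exact_mod_cast h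
    linarith
  rw [abs_le]
  constructor <;> nlinarith

open Classical in
/-- a bad window stays bad when few of its first places are removed -/
lemma shrink (b k : ℕ) (hb : 2 ≤ b) (z ε : ℝ) (u v w W : ℕ) (hε : 0 < ε) (huv : u + w ≤ v)
    (hw : (w : ℝ) ≤ ε / 2 * ((v : ℝ) - u))
    (hbad : ε * (v - u) < |(((Ico u v).filter (fun j => St b k W z j)).card : ℝ) - (v - u) / (b : ℝ) ^ k|) :
    ε / 2 * (v - ((u + w : ℕ) : ℝ)) < |(((Ico (u + w) v).filter (fun j => St b k W z j)).card : ℝ) -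
      (v - ((u + w : ℕ) : ℝ)) / (b : ℝ) ^ k| := by
  have hbk : (1 : ℝ) ≤ (b : ℝ) ^ k := one_le_pow₀ (by exact_mod_cast (by omega : 1 ≤ b))
  have h1 := cn_add (fun j => St b k W z j) u (u + w) v (by omega) huv
  have h2 := cn_abs (fun j => St b k W z j) u (u + w) (by omega) (1 / (b : ℝ) ^ k) (by positivity)
    (by rw [div_le_one (by positivity)]; exact hbk)
  have h3 : ((cn (fun j => St b k W z j) u v : ℕ) : ℝ) = cn (fun j => St b k W z j) u (u + w) +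
      cn (fun j => St b k W z j) (u + w) v := by exact_mod_cast h1
  change ε * (v - u) < |((cn (fun j => St b k W z j) u v : ℕ) : ℝ) - (v - u) / (b : ℝ) ^ k| at hbad
  change ε / 2 * (v - ((u + w : ℕ) : ℝ)) < |((cn (fun j => St b k W z j) (u + w) v : ℕ) : ℝ) -
      (v - ((u + w : ℕ) : ℝ)) / (b : ℝ) ^ k|
  rw [h3] at hbad
  push_cast at h2 ⊢
  have h4 : ((cn (fun j => St b k W z j) u (u + w) : ℕ) : ℝ) +
      ((cn (fun j => St b k W z j) (u + w) v : ℕ) : ℝ) - ((v : ℝ) - u) / (b : ℝ) ^ k =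
      (((cn (fun j => St b k W z j) u (u + w) : ℕ) : ℝ) - ((u : ℝ) + w - u) * (1 / (b : ℝ) ^ k)) +
      (((cn (fun j => St b k W z j) (u + w) v : ℕ) : ℝ) - ((v : ℝ) - (u + w)) / (b : ℝ) ^ k) := by
    ring
  rw [h4] at hbad
  have h5 := abs_add_le (((cn (fun j => St b k W z j) u (u + w) : ℕ) : ℝ) -
    ((u : ℝ) + w - u) * (1 / (b : ℝ) ^ k))
    (((cn (fun j => St b k W z j) (u + w) v : ℕ) : ℝ) - ((v : ℝ) - (u + w)) / (b : ℝ) ^ k)
  have h6 : (0 : ℝ) ≤ w := Nat.cast_nonneg w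
  have h7 : 0 ≤ ε / 2 * (w : ℝ) := by positivity
  nlinarith

open Classical in
/-- a bad window contains a bad block -/
lemma window_block (b k l : ℕ) (hb : 2 ≤ b) (hl : 1 ≤ l) (ε : ℝ) (hε : 0 < ε) (hl2 : 4 * k / ε ≤ l)
    (z : ℝ) (u v W : ℕ) (hW : W < b ^ k) (huv : u ≤ v) (hlen : 16 / ε * l ≤ (v : ℝ) - u)
    (hbad : ε * (v - u) < |(((Ico u v).filter (fun j => St b k W z j)).card : ℝ) - (v - u) / (b : ℝ) ^ k|) :
    ∃ t : ℕ, u ≤ t * l ∧ (t + 1) * l ≤ v ∧ BadB b k l (ε / 2) z t := by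
  by_contra hcon
  push Not at hcon
  obtain ⟨w, hw⟩ := Pool.Agent.Helper21K9.PM.exists_word b k hb W hW
  have hlr : (1 : ℝ) ≤ l := by exact_mod_cast hl
  have hl0 : (0 : ℝ) < l := by linarith
  have hbk : (1 : ℝ) ≤ (b : ℝ) ^ k := one_le_pow₀ (by exact_mod_cast (by omega : 1 ≤ b))
  have hcast : (((v - u : ℕ)) : ℝ) = (v : ℝ) - u := by
    rw [Nat.cast_sub huv]
  have hocc : ∀ t : ℕ, cn (fun j => St b k W z j) (t * l) (t * l + l) = occ b k w z (t * l) l := by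
    intro t
    unfold cn occ
    rw [card_filter, card_filter, sum_Ico_eq_sum_range, Nat.add_sub_cancel_left]
    refine sum_congr rfl fun j _ => ?_
    simp only [St_iff b k W w hb hw]
  have h1 := gridQ (fun j => St b k W z j) l hl (1 / (b : ℝ) ^ k) (ε / 2 * l + k) (by positivity)
    (by rw [div_le_one (by positivity)]; exact hbk) (by positivity) u v huv (fun t ht1 ht2 => by
      have h2 := hcon t ht1 ht2
      unfold BadB at h2
      push Not at h2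
      rw [hocc, mul_one_div]
      exact h2 w)
  rw [hcast, mul_one_div] at h1
  have h2 : ε * ((v : ℝ) - u) < 4 * l + (ε / 2 * l + k) * (((v : ℝ) - u) / l) := by
    refine lt_of_lt_of_le hbad ?_
    unfold cn at h1
    convert h1
  have h3 : 4 * (l : ℝ) ≤ ε / 4 * ((v : ℝ) - u) := by
    have : ε / 4 * (16 / ε * l) ≤ ε / 4 * ((v : ℝ) - u) := by gcongr
    refine le_trans (le_of_eq ?_) this
    field_simp
    norm_num
  have hvu : 0 ≤ (v : ℝ) - u := by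
    refine le_trans ?_ hlen
    positivity
  have h4 : (k : ℝ) * (((v : ℝ) - u) / l) ≤ ε / 4 * ((v : ℝ) - u) := by
    have h5 : (k : ℝ) ≤ ε / 4 * l := by
      rw [div_le_iff₀ hε] at hl2
      linarith
    calc (k : ℝ) * (((v : ℝ) - u) / l) ≤ (ε / 4 * l) * (((v : ℝ) - u) / l) := by gcongr
      _ = _ := by field_simp
  have h5 : ε / 2 * l * (((v : ℝ) - u) / l) = ε / 2 * ((v : ℝ) - u) := by field_simp
  nlinarith

end Pool.Agent.Helper12K9.QU
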