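import Pool.Agent.Helper12K9.QU.Vk5

/-!
# The digits of the quotients `x / m + y`: the bad `m` are few
-/

set_option autoImplicit false

namespace Pool.Agent.Helper12K9.QU

open Finset Filter Topology
open Pool.Agent.W226.MP Pool.Agent.TH869.LPD

open Classical in
/-- one bad block is rare -/
lemma one_block (θ τ σ ρ ρ₂ δ δ' ε ε' : ℝ) (b k N t : ℕ) (x y : ℝ) (hk : 1 ≤ k) (hb : 2 ≤ b)
    (hε : 0 < ε) (hε'0 : 0 < ε') (hε'1 : ε' ≤ 1) (hε'2 : ε' ≤ ε / 4) (hx : x ≠ 0)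
    (hB : Big θ τ σ ρ ρ₂ δ δ' ε ε' b k x N)
    (hU : ∀ (N' : ℕ) (Y : ℝ), N ≤ N' → N' ≤ 2 * N → N * Real.exp (2 * Real.log N ^ ρ) ≤ |Y| →
      |Y| ≤ Real.exp (Real.log N ^ (1 + δ)) →
      ‖∑ n ∈ Ioc N N', E Y n‖ ≤ N * Real.exp (-(Real.log N ^ ρ)))
    (ht1 : N * Real.exp (2 * Real.log N ^ ρ) ≤ (b : ℝ) ^ (t * ⌊Real.log N ^ τ⌋₊) * |x|)
    (ht2 : ((t * ⌊Real.log N ^ τ⌋₊ : ℕ) : ℝ) ≤ (2 * Real.log N) ^ (1 + δ')) :
    (((range N).filter (fun l : ℕ =>
      BadB b k ⌊Real.log N ^ τ⌋₊ (ε / 2 / 2) (qs x y N l) t)).card : ℝ) ≤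
      12 * k * (b : ℝ) ^ k * Real.exp (-(2 * Real.log N ^ σ)) * N := by
  obtain ⟨hL1, hN2, c1, c2, c3, c4, c4b, c4c, c5, c6, c7⟩ := hB
  generalize hLg : Real.log (N : ℝ) = Lg at *
  have hN0 : (0 : ℝ) < N := by exact_mod_cast (by omega : 0 < N)
  have hNe : (N : ℝ) = Real.exp Lg := by rw [← hLg, Real.exp_log hN0]
  have hb0 : (0 : ℝ) < b := by exact_mod_cast (by omega : 0 < b)
  have hlb : 0 ≤ Real.log b := Real.log_natCast_nonneg b
  have hk0 : (0 : ℝ) < k := by exact_mod_cast hk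
  have hLg0 : 0 < Lg := by linarith
  have hLτ : 0 ≤ Lg ^ τ := by positivity
  have hl0a : (⌊Lg ^ τ⌋₊ : ℝ) ≤ Lg ^ τ := Nat.floor_le hLτ
  have hl0b : Lg ^ τ < (⌊Lg ^ τ⌋₊ : ℝ) + 1 := Nat.lt_floor_add_one _
  generalize hl0 : ⌊Lg ^ τ⌋₊ = l0 at *
  have hl1 : 1 ≤ l0 := by
    have h1 : (0 : ℝ) < l0 := by
      have h2 : 0 ≤ 8 * (k : ℝ) / ε := by positivity
      linarith
    exact_mod_cast h1
  obtain ⟨L, hL⟩ : ∃ L : ℕ, L = l0 + k - 1 := ⟨_, rfl⟩
  have hLk : L + 1 - k = l0 := by omega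
  have hkL : k ≤ L := by omega
  have hLle : (L : ℝ) ≤ k + Lg ^ τ := by
    have : (L : ℝ) ≤ k + l0 := by exact_mod_cast (by omega : L ≤ k + l0)
    linarith
  have hbexp : ∀ n : ℕ, (b : ℝ) ^ n = Real.exp (n * Real.log b) := by
    intro n
    rw [mul_comm, Real.exp_mul, Real.exp_log hb0, Real.rpow_natCast]
  have habs : 0 < |x| := abs_pos.2 hx
  have hxe : |x| = Real.exp (Real.log |x|) := (Real.exp_log habs).symm
  obtain ⟨S, hS⟩ : ∃ S : ℝ, S = N * Real.exp (-(Lg ^ ρ)) := ⟨_, rfl⟩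
  have hS0 : 0 ≤ S := by rw [hS]; positivity
  have hSN : ((b : ℝ) ^ L) ^ 4 * S ≤ N := by
    have h1 : ((b : ℝ) ^ L) ^ 4 ≤ Real.exp (Lg ^ ρ) := by
      rw [← pow_mul, hbexp]
      apply Real.exp_le_exp.2
      push_cast
      calc (L : ℝ) * 4 * Real.log b = 4 * L * Real.log b := by ring
        _ ≤ 4 * (k + Lg ^ τ) * Real.log b := by gcongr
        _ ≤ _ := c1
    calc ((b : ℝ) ^ L) ^ 4 * S ≤ Real.exp (Lg ^ ρ) * S := by gcongr
      _ = N * (Real.exp (Lg ^ ρ) * Real.exp (-(Lg ^ ρ))) := by rw [hS]; ring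
      _ = N := by rw [← Real.exp_add, add_neg_cancel, Real.exp_zero, mul_one]
  have hSb : ∀ h : ℤ, h ≠ 0 → |h| < (((b ^ L) ^ 3 : ℕ) : ℤ) →
      ‖∑ n ∈ Ioc N (2 * N), E (h * (b : ℝ) ^ (t * l0) * x) n‖ ≤ S := by
    intro h hh hlt
    have hh1 : (1 : ℝ) ≤ |(h : ℝ)| := by
      have : (1 : ℤ) ≤ |h| := Int.one_le_abs hh
      have h2 : ((1 : ℤ) : ℝ) ≤ ((|h| : ℤ) : ℝ) := by exact_mod_cast this
      simpa using h2
    have hh2 : |(h : ℝ)| ≤ (b : ℝ) ^ (3 * L) := by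
      have h2 : ((|h| : ℤ) : ℝ) ≤ ((((b ^ L) ^ 3 : ℕ) : ℤ) : ℝ) := by exact_mod_cast hlt.le
      rw [Int.cast_abs] at h2
      refine h2.trans (le_of_eq ?_)
      push_cast
      rw [← pow_mul, mul_comm]
    have e1 : |(h : ℝ) * (b : ℝ) ^ (t * l0) * x| = |(h : ℝ)| * (b : ℝ) ^ (t * l0) * |x| := by
      rw [abs_mul, abs_mul, abs_of_nonneg (by positivity : (0 : ℝ) ≤ (b : ℝ) ^ (t * l0))]
    rw [hS]
    apply hU (2 * N) _ (by omega) le_rfl
    · rw [e1]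
      refine ht1.trans ?_
      calc (b : ℝ) ^ (t * l0) * |x| = 1 * (b : ℝ) ^ (t * l0) * |x| := by ring
        _ ≤ _ := by gcongr
    · rw [e1]
      calc |(h : ℝ)| * (b : ℝ) ^ (t * l0) * |x| ≤
          (b : ℝ) ^ (3 * L) * (b : ℝ) ^ (t * l0) * |x| := by gcongr
        _ = Real.exp ((3 * L + ((t * l0 : ℕ) : ℝ)) * Real.log b + Real.log |x|) := by
          rw [Real.exp_add, Real.exp_log habs, ← pow_add, hbexp]
          push_cast
          ring_nf
        _ ≤ _ := by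
          apply Real.exp_le_exp.2
          refine le_trans ?_ c2
          gcongr
          exact le_abs_self _
  have hmain := blockQ b k L (t * l0) N hb hk hkL x y S hS0 hSb hSN ε' hε'0 hε'1
  rw [hLk] at hmain
  have hsub : (range N).filter (fun l : ℕ => BadB b k l0 (ε / 2 / 2) (qs x y N l) t) ⊆
      (range N).filter (fun l : ℕ => ∃ w : Fin k → Fin b, ε' * (l0 : ℕ) + k <
      |(occ b k w (qs x y N l) (t * l0) l0 : ℝ) - (l0 : ℕ) / (b : ℝ) ^ k|) := by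
    intro l hl
    rw [mem_filter] at hl ⊢
    refine ⟨hl.1, ?_⟩
    obtain ⟨w, hw⟩ := hl.2
    refine ⟨w, lt_of_le_of_lt ?_ hw⟩
    have h9 : ε' ≤ ε / 2 / 2 := by linarith
    gcongr
  refine (Nat.cast_le.2 (card_le_card hsub)).trans (hmain.trans ?_)
  have hdiv : (Lg ^ τ - 1) / k - 1 ≤ ((l0 / k : ℕ) : ℝ) := by
    have h1 : l0 < (l0 / k) * k + k := Nat.lt_div_mul_add (by omega)
    have h2 : (l0 : ℝ) < ((l0 / k : ℕ) : ℝ) * k + k := by exact_mod_cast h1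
    have h3 : (Lg ^ τ - 1) / k ≤ ((l0 / k : ℕ) : ℝ) + 1 := by
      rw [div_le_iff₀ hk0]
      nlinarith
    linarith
  have hexp : Real.exp (-(ε' ^ 2 / 4) * ((l0 / k : ℕ) : ℝ)) ≤ Real.exp (-(2 * Lg ^ σ)) := by
    apply Real.exp_le_exp.2
    have h1 : ε' ^ 2 / 4 * ((Lg ^ τ - 1) / k - 1) ≤ ε' ^ 2 / 4 * ((l0 / k : ℕ) : ℝ) := by gcongr
    linarith
  gcongr

open Classical in
/-- **The bad `m` in a dyadic interval are few.** -/
theorem dyadic (θ τ σ ρ ρ₂ δ δ' ε ε' : ℝ) (b k N : ℕ) (x y : ℝ) (hk : 1 ≤ k) (hb : 2 ≤ b)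
    (hε : 0 < ε) (hε'0 : 0 < ε') (hε'1 : ε' ≤ 1) (hε'2 : ε' ≤ ε / 4) (hx : x ≠ 0)
    (hδ'0 : 0 ≤ δ') (hδ'1 : δ' ≤ 1) (hθ : 0 ≤ θ)
    (hB : Big θ τ σ ρ ρ₂ δ δ' ε ε' b k x N)
    (hU : ∀ (N' : ℕ) (Y : ℝ), N ≤ N' → N' ≤ 2 * N → N * Real.exp (2 * Real.log N ^ ρ) ≤ |Y| →
      |Y| ≤ Real.exp (Real.log N ^ (1 + δ)) →
      ‖∑ n ∈ Ioc N N', E Y n‖ ≤ N * Real.exp (-(Real.log N ^ ρ))) :
    (((range N).filter (fun l : ℕ => Bad θ δ' ε b k x y (N + 1 + l))).card : ℝ) ≤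
      N * Real.exp (-(Real.log N ^ σ)) := by
  have hB' := hB
  obtain ⟨hL1, hN2, c1, c2, c3, c4, c4b, c4c, c5, c6, c7⟩ := hB'
  obtain ⟨T, hT⟩ : ∃ T : ℕ, T = ⌊4 * Real.log N ^ 2⌋₊ := ⟨_, rfl⟩
  have hN0 : (0 : ℝ) < N := by exact_mod_cast (by omega : 0 < N)
  have hN1 : (1 : ℝ) ≤ N := by exact_mod_cast (by omega : 1 ≤ N)
  have hb0 : (0 : ℝ) < b := by exact_mod_cast (by omega : 0 < b)
  have hb1 : (1 : ℝ) < b := by exact_mod_cast (by omega : 1 < b)
  have hlb : 0 < Real.log b := Real.log_pos hb1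
  have hLτ : 0 ≤ Real.log N ^ τ := by positivity
  have hl0a : (⌊Real.log N ^ τ⌋₊ : ℝ) ≤ Real.log N ^ τ := Nat.floor_le hLτ
  have hl0b : Real.log N ^ τ < ⌊Real.log N ^ τ⌋₊ + 1 := Nat.lt_floor_add_one _
  have hl1 : 1 ≤ ⌊Real.log N ^ τ⌋₊ := by
    have h1 : (0 : ℝ) < ⌊Real.log N ^ τ⌋₊ := by
      have h2 : 0 ≤ 8 * (k : ℝ) / ε := by positivity
      have h3 : (0 : ℝ) < k := by exact_mod_cast hk
      linarith
    exact_mod_cast h1
  have hsub : (range N).filter (fun l : ℕ => Bad θ δ' ε b k x y (N + 1 + l)) ⊆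
      (range T).biUnion (fun t => if N * Real.exp (2 * Real.log N ^ ρ) ≤
        (b : ℝ) ^ (t * ⌊Real.log N ^ τ⌋₊) * |x| ∧
        ((t * ⌊Real.log N ^ τ⌋₊ : ℕ) : ℝ) ≤ (2 * Real.log N) ^ (1 + δ') then
        (range N).filter (fun l : ℕ => BadB b k ⌊Real.log N ^ τ⌋₊ (ε / 2 / 2) (qs x y N l) t) else ∅) := by
    intro l hl
    rw [mem_filter, mem_range] at hl
    obtain ⟨hlN, u, v, W, h1, h2, h3, h4, h5⟩ := hl
    have hm1 : (N : ℝ) ≤ ((N + 1 + l : ℕ) : ℝ) := by exact_mod_cast (by omega : N ≤ N + 1 + l)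
    have hm0 : (0 : ℝ) < ((N + 1 + l : ℕ) : ℝ) := by linarith
    have hm2 : ((N + 1 + l : ℕ) : ℝ) ≤ 2 * N := by exact_mod_cast (by omega : N + 1 + l ≤ 2 * N)
    have hlog1 : Real.log N ≤ Real.log ((N + 1 + l : ℕ) : ℝ) := Real.log_le_log hN0 hm1
    have hlog2 : Real.log ((N + 1 + l : ℕ) : ℝ) ≤ 2 * Real.log N := by
      calc Real.log ((N + 1 + l : ℕ) : ℝ) ≤ Real.log (2 * N) := Real.log_le_log hm0 hm2
        _ = Real.log 2 + Real.log N := Real.log_mul (by norm_num) hN0.ne'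
        _ ≤ Real.log N + Real.log N := by
          have : Real.log 2 ≤ Real.log N := Real.log_le_log (by norm_num) (by exact_mod_cast hN2)
          linarith
        _ = 2 * Real.log N := by ring
    have hθm : Real.log N ^ θ ≤ Real.log ((N + 1 + l : ℕ) : ℝ) ^ θ :=
      Real.rpow_le_rpow (by linarith) hlog1 hθ
    have huv' : (u : ℝ) + Real.log N ^ θ ≤ v := by linarith
    obtain ⟨w, hw⟩ : ∃ w : ℕ, w = ⌈Real.log N ^ ρ₂⌉₊ := ⟨_, rfl⟩
    have hw1 : Real.log N ^ ρ₂ ≤ w := by rw [hw]; exact Nat.le_ceil _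
    have hw2 : (w : ℝ) < Real.log N ^ ρ₂ + 1 := by
      rw [hw]
      exact Nat.ceil_lt_add_one (by positivity)
    have huw : u + w ≤ v := by
      have h7 : ((u + w : ℕ) : ℝ) ≤ v := by
        push_cast
        have h8 : 0 ≤ Real.log N ^ ρ₂ := by positivity
        linarith
      exact_mod_cast h7
    have hws : (w : ℝ) ≤ ε / 2 * ((v : ℝ) - u) := by
      have h7 : ε / 2 * (4 / ε * (Real.log N ^ ρ₂ + 1)) ≤ ε / 2 * ((v : ℝ) - u) := by
        apply mul_le_mul_of_nonneg_left _ (by positivity)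
        linarith
      have h8 : ε / 2 * (4 / ε * (Real.log N ^ ρ₂ + 1)) = 2 * (Real.log N ^ ρ₂ + 1) := by
        field_simp
        norm_num
      have h9 : 0 ≤ Real.log N ^ ρ₂ := by positivity
      linarith
    have h5' := shrink b k hb _ ε u v w W hε huw hws h5
    obtain ⟨t, ht1, ht2, ht3⟩ := window_block b k ⌊Real.log N ^ τ⌋₊ hb hl1 (ε / 2) (by linarith) (by
      have h3 : (0 : ℝ) < k := by exact_mod_cast hk
      have h6 : 4 * (k : ℝ) / (ε / 2) = 8 * k / ε := by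
        field_simp
        norm_num
      rw [h6]
      linarith) (x / ((N + 1 + l : ℕ) : ℝ) + y) (u + w) v W h4 huw (by
        have h6 : 16 / (ε / 2) * (⌊Real.log N ^ τ⌋₊ : ℝ) ≤ 1 / 2 * (64 / ε * (Real.log N ^ τ)) := by
          have h7 : 1 / 2 * (64 / ε * (Real.log N ^ τ)) = 16 / (ε / 2) * (Real.log N ^ τ) := by
            field_simp
            norm_num
          rw [h7]
          gcongr
        push_cast
        linarith) h5'
    have hv : (v : ℝ) ≤ (2 * Real.log N) ^ (1 + δ') := by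
      refine h3.trans ?_
      exact Real.rpow_le_rpow (by linarith) hlog2 (by linarith)
    have htv : (((t + 1) * ⌊Real.log N ^ τ⌋₊ : ℕ) : ℝ) ≤ (2 * Real.log N) ^ (1 + δ') := by
      refine le_trans ?_ hv
      exact_mod_cast ht2
    have hv2 : (2 * Real.log N) ^ (1 + δ') ≤ 4 * Real.log N ^ 2 := by
      calc (2 * Real.log N) ^ (1 + δ') ≤ (2 * Real.log N) ^ (2 : ℝ) :=
            Real.rpow_le_rpow_of_exponent_le (by linarith) (by linarith)
        _ = 4 * Real.log N ^ 2 := by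
          rw [Real.rpow_two]
          ring
    have htT : t < T := by
      have h6 : (t : ℝ) + 1 ≤ 4 * Real.log N ^ 2 := by
        refine le_trans ?_ (htv.trans hv2)
        have h7 : t + 1 ≤ (t + 1) * ⌊Real.log N ^ τ⌋₊ := Nat.le_mul_of_pos_right _ hl1
        exact_mod_cast h7
      have h8 : t + 1 ≤ T := by
        rw [hT]
        apply Nat.le_floor
        push_cast
        exact h6
      omega
    rw [mem_biUnion]
    refine ⟨t, mem_range.2 htT, ?_⟩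
    have habs : 0 < |x| := abs_pos.2 hx
    have hc : N * Real.exp (2 * Real.log N ^ ρ) ≤ (b : ℝ) ^ (t * ⌊Real.log N ^ τ⌋₊) * |x| ∧
        ((t * ⌊Real.log N ^ τ⌋₊ : ℕ) : ℝ) ≤ (2 * Real.log N) ^ (1 + δ') := by
      constructor
      · have h6 : Real.log N / Real.log b + Real.log N ^ ρ₂ ≤ ((t * ⌊Real.log N ^ τ⌋₊ : ℕ) : ℝ) := by
          calc Real.log N / Real.log b + Real.log N ^ ρ₂ ≤
              Real.log ((N + 1 + l : ℕ) : ℝ) / Real.log b + w := by gcongr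
            _ ≤ u + w := by gcongr
            _ ≤ _ := by exact_mod_cast ht1
        have h7 : Real.log N + Real.log N ^ ρ₂ * Real.log b ≤
            Real.log b * ((t * ⌊Real.log N ^ τ⌋₊ : ℕ) : ℝ) := by
          calc Real.log N + Real.log N ^ ρ₂ * Real.log b =
              Real.log b * (Real.log N / Real.log b + Real.log N ^ ρ₂) := by
                field_simp
            _ ≤ _ := by gcongr
        have h8 := neg_abs_le (Real.log |x|)
        calc N * Real.exp (2 * Real.log N ^ ρ) = Real.exp (Real.log N + 2 * Real.log N ^ ρ) := by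
              rw [Real.exp_add, Real.exp_log hN0]
          _ ≤ Real.exp (Real.log b * ((t * ⌊Real.log N ^ τ⌋₊ : ℕ) : ℝ) + Real.log |x|) := by
              apply Real.exp_le_exp.2
              linarith
          _ = (b : ℝ) ^ (t * ⌊Real.log N ^ τ⌋₊) * |x| := by
              rw [Real.exp_add, Real.exp_log habs, ← Real.rpow_natCast,
                Real.rpow_def_of_pos hb0]
      · refine le_trans ?_ htv
        exact_mod_cast Nat.mul_le_mul_right _ (Nat.le_succ t)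
    rw [if_pos hc, mem_filter, mem_range]
    exact ⟨hlN, ht3⟩
  have hcard : (((range N).filter (fun l : ℕ => Bad θ δ' ε b k x y (N + 1 + l))).card : ℝ) ≤
      T * (12 * k * (b : ℝ) ^ k * Real.exp (-(2 * Real.log N ^ σ)) * N) := by
    refine (Nat.cast_le.2 ((card_le_card hsub).trans card_biUnion_le)).trans ?_
    rw [Nat.cast_sum]
    refine (sum_le_sum (fun t _ => ?_)).trans (le_of_eq ?_) (b := ∑ t ∈ range T,
      12 * k * (b : ℝ) ^ k * Real.exp (-(2 * Real.log N ^ σ)) * N)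
    · split_ifs with hc
      · exact one_block θ τ σ ρ ρ₂ δ δ' ε ε' b k N t x y hk hb hε hε'0 hε'1 hε'2 hx hB hU hc.1 hc.2
      · simp only [card_empty, Nat.cast_zero]
        positivity
    · rw [sum_const, card_range, nsmul_eq_mul]
  refine hcard.trans ?_
  have hTle : (T : ℝ) ≤ 5 * Real.log N ^ 2 := by
    have h1 : (T : ℝ) ≤ 4 * Real.log N ^ 2 := by
      rw [hT]
      exact Nat.floor_le (by positivity)
    have h2 : 0 ≤ Real.log N ^ 2 := by positivity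
    linarith
  calc T * (12 * k * (b : ℝ) ^ k * Real.exp (-(2 * Real.log N ^ σ)) * N)
      = (T * (12 * k * (b : ℝ) ^ k)) * (Real.exp (-(2 * Real.log N ^ σ)) * N) := by ring
    _ ≤ ((5 * Real.log N ^ 2) * (12 * k * (b : ℝ) ^ k)) *
        (Real.exp (-(2 * Real.log N ^ σ)) * N) := by gcongr
    _ ≤ Real.exp (Real.log N ^ σ) * (Real.exp (-(2 * Real.log N ^ σ)) * N) := by gcongr
    _ = N * (Real.exp (Real.log N ^ σ) * Real.exp (-(2 * Real.log N ^ σ))) := by ring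
    _ = N * Real.exp (-(Real.log N ^ σ)) := by
      rw [← Real.exp_add]
      congr 2
      ring

/-- final numerical comparison -/
lemma fin_ev (θ' σ : ℝ) (h0 : 0 < θ') (h1 : θ' < σ) (h2 : σ < 1) :
    ∀ᶠ X : ℕ in atTop, Real.sqrt X + 2 * X * Real.exp (-((Real.log X / 3) ^ σ)) ≤
      X * Real.exp (-(Real.log X ^ θ')) := by
  have e1 : ∀ᶠ L : ℝ in atTop, L ^ θ' + Real.log 4 ≤ L / 2 := by
    filter_upwards [ev_pow 1 (1 / 4) θ' 1 (by norm_num) (by linarith),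
      ev_pow (Real.log 4) (1 / 4) 0 1 (by norm_num) (by norm_num)] with L h3 h4
    rw [Real.rpow_one] at h3 h4
    rw [Real.rpow_zero, mul_one] at h4
    linarith
  have e2 : ∀ᶠ L : ℝ in atTop, L ^ θ' + Real.log 4 ≤ (L / 3) ^ σ := by
    have h3 : (0 : ℝ) < (1 / 3) ^ σ / 2 := by positivity
    filter_upwards [ev_pow 1 ((1 / 3) ^ σ / 2) θ' σ h3 h1,
      ev_pow (Real.log 4) ((1 / 3) ^ σ / 2) 0 σ h3 (by linarith), eventually_ge_atTop 0]
      with L h4 h5 h6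
    rw [Real.rpow_zero, mul_one] at h5
    rw [show L / 3 = (1 / 3) * L by ring, Real.mul_rpow (by norm_num) h6]
    linarith
  filter_upwards [logN_tendsto.eventually e1, logN_tendsto.eventually e2, eventually_ge_atTop 1]
    with X h3 h4 h5
  have hX : (0 : ℝ) < X := by exact_mod_cast (by omega : 0 < X)
  obtain ⟨L, hL⟩ : ∃ L : ℝ, L = Real.log X := ⟨_, rfl⟩
  rw [← hL] at h3 h4 ⊢
  have hXe : (X : ℝ) = Real.exp L := by rw [hL, Real.exp_log hX]
  have h6 : Real.sqrt X = Real.exp (L / 2) := by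
    rw [hXe, Real.exp_half]
  have h7 : Real.exp (L / 2) ≤ Real.exp L * (Real.exp (-(L ^ θ')) / 4) := by
    have h8 : Real.exp (-(L ^ θ')) / 4 = Real.exp (-(L ^ θ') - Real.log 4) := by
      rw [Real.exp_sub, Real.exp_log (by norm_num)]
    rw [h8, ← Real.exp_add]
    apply Real.exp_le_exp.2
    linarith
  have h9 : Real.exp (-((L / 3) ^ σ)) ≤ Real.exp (-(L ^ θ')) / 4 := by
    have h8 : Real.exp (-(L ^ θ')) / 4 = Real.exp (-(L ^ θ') - Real.log 4) := by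
      rw [Real.exp_sub, Real.exp_log (by norm_num)]
    rw [h8]
    apply Real.exp_le_exp.2
    linarith
  have h10 : 0 < Real.exp L * Real.exp (-(L ^ θ')) := by positivity
  calc Real.sqrt X + 2 * X * Real.exp (-((L / 3) ^ σ)) ≤
      Real.exp L * (Real.exp (-(L ^ θ')) / 4) + 2 * X * (Real.exp (-(L ^ θ')) / 4) := by
        rw [h6]
        gcongr
    _ = Real.exp L * Real.exp (-(L ^ θ')) * (3 / 4) := by rw [hXe]; ring
    _ ≤ Real.exp L * Real.exp (-(L ^ θ')) * 1 := by gcongr; norm_num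
    _ = X * Real.exp (-(L ^ θ')) := by rw [hXe, mul_one]

open Classical in
/-- **The bad `m ≤ X` are few.** -/
theorem quotients (θ θ' : ℝ) (h0 : 0 < θ') (h1 : θ' < θ) (h2 : θ < 1) : ∃ δ : ℝ, 0 < δ ∧
    ∀ (x : ℝ) (b k : ℕ) (ε : ℝ), x ≠ 0 → 2 ≤ b → 1 ≤ k → 0 < ε → ∃ X₀ : ℕ, ∀ X : ℕ, X₀ ≤ X →
      ∀ y : ℝ, (((Icc 1 X).filter (fun m : ℕ => Bad θ δ ε b k x y m)).card : ℝ) ≤
        X * Real.exp (-(Real.log X ^ θ')) := by
  obtain ⟨σ, hσ⟩ : ∃ σ : ℝ, σ = (4 * θ' + θ) / 5 := ⟨_, rfl⟩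
  obtain ⟨τ, hτ⟩ : ∃ τ : ℝ, τ = (3 * θ' + 2 * θ) / 5 := ⟨_, rfl⟩
  obtain ⟨ρ, hρ⟩ : ∃ ρ : ℝ, ρ = (2 * θ' + 3 * θ) / 5 := ⟨_, rfl⟩
  obtain ⟨ρ₂, hρ₂⟩ : ∃ ρ₂ : ℝ, ρ₂ = (θ' + 4 * θ) / 5 := ⟨_, rfl⟩
  have hθσ : θ' < σ := by rw [hσ]; linarith
  have hστ : σ < τ := by rw [hσ, hτ]; linarith
  have hτρ : τ < ρ := by rw [hτ, hρ]; linarith
  have hρρ : ρ < ρ₂ := by rw [hρ, hρ₂]; linarith
  have hρθ : ρ₂ < θ := by rw [hρ₂]; linarith
  obtain ⟨δ, hδ0, hδ1, hδ⟩ := expV ρ (by linarith) (by linarith)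
  refine ⟨δ / 2, by linarith, fun x b k ε hx hb hk hε => ?_⟩
  obtain ⟨ε', hε'⟩ : ∃ ε' : ℝ, ε' = min (ε / 4) 1 := ⟨_, rfl⟩
  have hε'0 : 0 < ε' := by rw [hε']; exact lt_min (by linarith) one_pos
  have hε'1 : ε' ≤ 1 := by rw [hε']; exact min_le_right _ _
  have hε'2 : ε' ≤ ε / 4 := by rw [hε']; exact min_le_left _ _
  have e1 := big_ev θ τ σ ρ ρ₂ δ (δ / 2) ε ε' b k x hk hb hε hε'0 (by linarith) hστ hτρ hρρ hρθ
    (by linarith) (by linarith) (by linarith)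
  obtain ⟨N₀, hN₀⟩ := eventually_atTop.1 (e1.and hδ)
  obtain ⟨X₁, hX₁⟩ := eventually_atTop.1 (fin_ev θ' σ h0 hθσ (by linarith))
  refine ⟨max (max X₁ ((2 * N₀) ^ 2)) 64, fun X hX y => ?_⟩
  have hXa : X₁ ≤ X := le_trans (le_trans (le_max_left _ _) (le_max_left _ _)) hX
  have hXb : (2 * N₀) ^ 2 ≤ X := le_trans (le_trans (le_max_right _ _) (le_max_left _ _)) hX
  have hXc : 64 ≤ X := le_trans (le_max_right _ _) hX
  refine le_trans ?_ (hX₁ X hXa)
  have hX0 : (0 : ℝ) < X := by exact_mod_cast (by omega : 0 < X)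
  obtain ⟨s, hs⟩ : ∃ s : ℕ, s = Nat.sqrt X := ⟨_, rfl⟩
  have hs1 : s * s ≤ X := by rw [hs]; exact Nat.sqrt_le X
  have hs2 : X < (s + 1) * (s + 1) := by rw [hs]; exact Nat.lt_succ_sqrt X
  have hsN : 2 * N₀ ≤ s := by
    rw [hs, Nat.le_sqrt]
    rw [pow_two] at hXb
    exact hXb
  obtain ⟨I, hI⟩ : ∃ I : ℕ, I = Nat.log 2 X := ⟨_, rfl⟩
  have hI1 : 2 ^ I ≤ X := by rw [hI]; exact Nat.pow_log_le_self 2 (by omega)
  have hdy : ∀ i : ℕ, s < 2 ^ (i + 1) →
      (((range (2 ^ i)).filter (fun l : ℕ => Bad θ (δ / 2) ε b k x y (2 ^ i + 1 + l))).card : ℝ) ≤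
        2 ^ i * Real.exp (-((Real.log X / 3) ^ σ)) := by
    intro i hi
    have hi0 : N₀ ≤ 2 ^ i := by
      rw [pow_succ] at hi
      omega
    obtain ⟨g1, g2⟩ := hN₀ _ hi0
    have g3 := dyadic θ τ σ ρ ρ₂ δ (δ / 2) ε ε' b k (2 ^ i) x y hk hb hε hε'0 hε'1 hε'2 hx
      (by linarith) (by linarith) (by linarith) g1 g2
    refine g3.trans ?_
    have hlog : Real.log X / 3 ≤ Real.log ((2 : ℝ) ^ i) := by
      have h3 : (X : ℝ) ≤ ((2 : ℝ) ^ (i + 1)) ^ 2 := by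
        have h4 : X ≤ (2 ^ (i + 1)) ^ 2 := by
          calc X ≤ (s + 1) * (s + 1) := hs2.le
            _ ≤ (2 ^ (i + 1)) * (2 ^ (i + 1)) := Nat.mul_le_mul hi hi
            _ = _ := by ring
        exact_mod_cast h4
      have h5 : Real.log X ≤ 2 * ((i + 1 : ℕ) * Real.log 2) := by
        have := Real.log_le_log hX0 h3
        rw [Real.log_pow, Real.log_pow] at this
        push_cast at this ⊢
        linarith
      have h6 : 6 * Real.log 2 ≤ Real.log X := by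
        have h7 : Real.log ((2 : ℝ) ^ 6) ≤ Real.log X :=
          Real.log_le_log (by norm_num) (by norm_num; exact_mod_cast hXc)
        rw [Real.log_pow] at h7
        push_cast at h7
        linarith
      rw [Real.log_pow]
      push_cast at h5
      linarith
    push_cast
    have hσ0 : 0 ≤ σ := by linarith
    gcongr
  have hsub : (Icc 1 X).filter (fun m : ℕ => Bad θ (δ / 2) ε b k x y m) ⊆ (Icc 1 s) ∪
      (range (I + 1)).biUnion (fun i => if s < 2 ^ (i + 1) then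
        ((range (2 ^ i)).filter (fun l : ℕ => Bad θ (δ / 2) ε b k x y (2 ^ i + 1 + l))).image
          (fun l => 2 ^ i + 1 + l) else ∅) := by
    intro m hm
    rw [mem_filter, mem_Icc] at hm
    obtain ⟨⟨hm1, hm2⟩, hbad⟩ := hm
    rw [mem_union]
    rcases Nat.lt_or_ge s m with hsm | hsm
    · right
      obtain ⟨i, hi⟩ : ∃ i : ℕ, i = Nat.log 2 (m - 1) := ⟨_, rfl⟩
      have hs8 : 1 ≤ s := by
        rw [hs, Nat.le_sqrt]
        omega
      have hi1 : 2 ^ i ≤ m - 1 := by rw [hi]; exact Nat.pow_log_le_self 2 (by omega)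
      have hi2 : m - 1 < 2 ^ (i + 1) := by rw [hi]; exact Nat.lt_pow_succ_log_self (by omega) _
      have hi3 : 2 ^ (i + 1) = 2 ^ i + 2 ^ i := by rw [pow_succ]; ring
      rw [mem_biUnion]
      refine ⟨i, ?_, ?_⟩
      · rw [mem_range, hI, hi]
        have := Nat.log_mono_right (b := 2) (show m - 1 ≤ X by omega)
        omega
      · rw [if_pos (by omega), mem_image]
        refine ⟨m - (2 ^ i + 1), ?_, by omega⟩
        rw [mem_filter, mem_range]
        refine ⟨by omega, ?_⟩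
        have : 2 ^ i + 1 + (m - (2 ^ i + 1)) = m := by omega
        rw [this]
        exact hbad
    · left
      rw [mem_Icc]
      exact ⟨hm1, hsm⟩
  have hcard := (card_le_card hsub).trans ((card_union_le _ _).trans
    (Nat.add_le_add_left card_biUnion_le _))
  rw [Nat.card_Icc, Nat.add_sub_cancel] at hcard
  refine (Nat.cast_le.2 hcard).trans ?_
  push_cast
  have hsr : (s : ℝ) ≤ Real.sqrt X := by
    apply Real.le_sqrt_of_sq_le
    have : ((s * s : ℕ) : ℝ) ≤ X := by exact_mod_cast hs1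
    push_cast at this
    nlinarith
  have hsum : (∑ i ∈ range (I + 1), (((if s < 2 ^ (i + 1) then
        ((range (2 ^ i)).filter (fun l : ℕ => Bad θ (δ / 2) ε b k x y (2 ^ i + 1 + l))).image
          (fun l => 2 ^ i + 1 + l) else ∅) : Finset ℕ).card : ℝ)) ≤
      2 * X * Real.exp (-((Real.log X / 3) ^ σ)) := by
    calc (∑ i ∈ range (I + 1), (((if s < 2 ^ (i + 1) then
        ((range (2 ^ i)).filter (fun l : ℕ => Bad θ (δ / 2) ε b k x y (2 ^ i + 1 + l))).image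
          (fun l => 2 ^ i + 1 + l) else ∅) : Finset ℕ).card : ℝ))
        ≤ ∑ i ∈ range (I + 1), (2 : ℝ) ^ i * Real.exp (-((Real.log X / 3) ^ σ)) := by
          refine sum_le_sum fun i _ => ?_
          split_ifs with hc
          · exact (Nat.cast_le.2 card_image_le).trans (hdy i hc)
          · simp only [card_empty, Nat.cast_zero]
            positivity
      _ = (∑ i ∈ range (I + 1), (2 : ℝ) ^ i) * Real.exp (-((Real.log X / 3) ^ σ)) := by
          rw [sum_mul]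
      _ ≤ (2 * X) * Real.exp (-((Real.log X / 3) ^ σ)) := by
          gcongr
          have h3 : ∑ i ∈ range (I + 1), (2 : ℝ) ^ i = 2 ^ (I + 1) - 1 := by
            rw [geom_sum_eq (by norm_num)]
            norm_num
          rw [h3, pow_succ]
          have h4 : (2 : ℝ) ^ I ≤ X := by exact_mod_cast hI1
          linarith
  linarith

end Pool.Agent.Helper12K9.QU
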